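import Pool.Agent.helper88.BK.Tutte

/-!
Colourings obtained from the three cases of the structure lemma.
-/

namespace Pool.Agent.helper88.BK

open Finset

variable {V : Type} [Fintype V] [DecidableEq V]

theorem pairing_col (hV : Fintype.card V = 14) (σ : V → V)
    (hσ : ∀ v, σ (σ v) = v ∧ v ≠ σ v) :
    ∃ φ : V → Fin 7, Function.Surjective φ ∧ ∀ v w, φ v = φ w ↔ (w = v ∨ w = σ v) := by
  classical
  set f : V → Finset V := fun v => {v, σ v} with hf
  have hfe : ∀ v w, f v = f w ↔ (w = v ∨ w = σ v) := by
    intro v w
    constructor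
    · intro h
      have : w ∈ f v := by rw [h]; simp [hf]
      simpa [hf] using this
    · rintro (rfl | rfl)
      · rfl
      · simp only [hf, (hσ v).1]
        exact Finset.pair_comm _ _
  have hcard : (Finset.univ.image f).card = 7 := by
    have h1 : (Finset.univ : Finset V).card
        = ∑ b ∈ Finset.univ.image f, (Finset.univ.filter (fun v => f v = b)).card :=
      Finset.card_eq_sum_card_image f _
    have h2 : ∀ b ∈ Finset.univ.image f, (Finset.univ.filter (fun v => f v = b)).card = 2 := by
      intro b hb
      obtain ⟨w, _, rfl⟩ := Finset.mem_image.1 hb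
      have : Finset.univ.filter (fun v => f v = f w) = {w, σ w} := by
        ext v
        simp only [Finset.mem_filter, Finset.mem_univ, true_and, Finset.mem_insert,
          Finset.mem_singleton]
        rw [eq_comm, hfe]
      rw [this, Finset.card_pair (hσ w).2]
    rw [Finset.sum_congr rfl h2, Finset.sum_const, Finset.card_univ, hV, smul_eq_mul] at h1
    omega
  have e : {x // x ∈ Finset.univ.image f} ≃ Fin 7 :=
    Fintype.equivFinOfCardEq (by rw [Fintype.card_coe, hcard])
  refine ⟨fun v => e ⟨f v, Finset.mem_image_of_mem f (Finset.mem_univ v)⟩, ?_, ?_⟩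
  · intro c
    obtain ⟨⟨b, hb⟩, hbc⟩ := e.surjective c
    obtain ⟨w, _, rfl⟩ := Finset.mem_image.1 hb
    exact ⟨w, hbc⟩
  · intro v w
    rw [e.injective.eq_iff, Subtype.mk.injEq, hfe]

omit [Fintype V] in
/-- a graph with maximum degree one on at most seven vertices: balanced 3-colouring -/
theorem greedy3 (F : SimpleGraph V) [DecidableRel F.Adj] (s : Finset V) :
    s.card ≤ 7 → (∀ v ∈ s, (s.filter (fun w => F.Adj v w)).card ≤ 1) →
    ∃ f : V → Fin 3, (∀ v ∈ s, ∀ w ∈ s, F.Adj v w → f v ≠ f w) ∧
      ∀ c, (s.filter (fun v => f v = c)).card ≤ 3 := by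
  classical
  induction s using Finset.induction_on with
  | empty => intro _ _; exact ⟨fun _ => 0, by simp, by simp⟩
  | insert a s ha ih =>
    intro hs hm
    rw [Finset.card_insert_of_notMem ha] at hs
    obtain ⟨f, hf, hc⟩ := ih (by omega) (by
      intro v hv
      refine le_trans (Finset.card_le_card ?_) (hm v (Finset.mem_insert_of_mem hv))
      exact Finset.filter_subset_filter _ (Finset.subset_insert _ _))
    set Bad : Finset (Fin 3) := (s.filter (fun w => F.Adj a w)).image f with hBad
    have hb1 : Bad.card ≤ 1 := by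
      refine Finset.card_image_le.trans ?_
      refine le_trans (Finset.card_le_card ?_) (hm a (Finset.mem_insert_self _ _))
      exact Finset.filter_subset_filter _ (Finset.subset_insert _ _)
    obtain ⟨c0, hc0, hc0'⟩ : ∃ c, c ∉ Bad ∧ (s.filter (fun v => f v = c)).card ≤ 2 := by
      by_contra hcon
      push Not at hcon
      have h1 : s.card = ∑ c, (s.filter (fun v => f v = c)).card :=
        Finset.card_eq_sum_card_fiberwise (fun x _ => Finset.mem_coe.2 (Finset.mem_univ _))
      have h2 : ∀ c : Fin 3, (if c ∈ Bad then 1 else 3) ≤ (s.filter (fun v => f v = c)).card := by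
        intro c
        by_cases h : c ∈ Bad
        · rw [if_pos h]
          obtain ⟨w, hw, hwc⟩ := Finset.mem_image.1 h
          exact Finset.card_pos.2 ⟨w, by simp [(Finset.mem_filter.1 hw).1, hwc]⟩
        · rw [if_neg h]
          exact hcon c h
      have h3 : ∑ c : Fin 3, (if c ∈ Bad then 1 else 3) ≤ s.card := by
        rw [h1]; exact Finset.sum_le_sum (fun c _ => h2 c)
      have h4 : ∑ c : Fin 3, (if c ∈ Bad then 1 else 3) = Bad.card * 1 + (3 - Bad.card) * 3 := by
        rw [Finset.sum_ite]
        simp only [Finset.sum_const, smul_eq_mul]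
        have e1 : (Finset.univ.filter (fun c => c ∈ Bad)).card = Bad.card := by
          congr 1; ext c; simp
        have e2 : (Finset.univ.filter (fun c => c ∉ Bad)).card = 3 - Bad.card := by
          have : Finset.univ.filter (fun c => c ∉ Bad) = Badᶜ := by ext c; simp
          rw [this, Finset.card_compl, Fintype.card_fin]
        rw [e1, e2]
      omega
    refine ⟨fun v => if v = a then c0 else f v, ?_, ?_⟩
    · intro v hv w hw hvw
      rcases Finset.mem_insert.1 hv with hva | hvs
      · rcases Finset.mem_insert.1 hw with hwa | hws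
        · exact absurd (hva.trans hwa.symm) hvw.ne
        · have hwa : w ≠ a := fun h => ha (h ▸ hws)
          simp only [if_pos hva, if_neg hwa]
          intro h
          apply hc0
          rw [h]
          exact Finset.mem_image.2 ⟨w, Finset.mem_filter.2 ⟨hws, hva ▸ hvw⟩, rfl⟩
      · have hva : v ≠ a := fun h => ha (h ▸ hvs)
        rcases Finset.mem_insert.1 hw with hwa | hws
        · simp only [if_pos hwa, if_neg hva]
          intro h
          exact hc0 (Finset.mem_image.2 ⟨v, Finset.mem_filter.2 ⟨hvs, (hwa ▸ hvw).symm⟩, h⟩)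
        · have hwa : w ≠ a := fun h => ha (h ▸ hws)
          simp only [if_neg hva, if_neg hwa]
          exact hf v hvs w hws hvw
    · intro c
      have hsub : (insert a s).filter (fun v => (if v = a then c0 else f v) = c) ⊆
          (if c = c0 then insert a (s.filter (fun v => f v = c))
            else s.filter (fun v => f v = c)) := by
        intro v hv
        rw [Finset.mem_filter, Finset.mem_insert] at hv
        obtain ⟨hv1, hv2⟩ := hv
        by_cases hva : v = a
        · subst hva
          rw [if_pos rfl] at hv2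
          rw [if_pos hv2.symm]
          exact Finset.mem_insert_self _ _
        · rw [if_neg hva] at hv2
          have hvs : v ∈ s := by tauto
          split_ifs
          · exact Finset.mem_insert_of_mem (Finset.mem_filter.2 ⟨hvs, hv2⟩)
          · exact Finset.mem_filter.2 ⟨hvs, hv2⟩
      refine (Finset.card_le_card hsub).trans ?_
      split_ifs with h
      · rw [h]
        refine (Finset.card_insert_le _ _).trans ?_
        omega
      · exact hc c

/-- case of two complementary sets of size seven, completely joined -/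
theorem bip_col (hV : Fintype.card V = 14) (F : SimpleGraph V) [DecidableRel F.Adj]
    (hd : ∀ v, F.degree v ≤ 8) (K1 : Finset V) (hK1 : K1.card = 7)
    (hadj : ∀ x ∈ K1, ∀ y, y ∉ K1 → F.Adj x y) :
    ∃ φ : V → Fin 7, (∀ v w, F.Adj v w → φ v ≠ φ w) ∧
      ∀ c, (Finset.univ.filter (fun v => φ v = c)).card ≤ 3 := by
  classical
  have hK2 : (K1ᶜ).card = 7 := by rw [Finset.card_compl, hV, hK1]
  have hm1 : ∀ v ∈ K1, (K1.filter (fun w => F.Adj v w)).card ≤ 1 := by
    intro v hv
    have h1 : K1.filter (fun w => F.Adj v w) ∪ K1ᶜ ⊆ F.neighborFinset v := by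
      intro w hw
      rw [SimpleGraph.mem_neighborFinset]
      rcases Finset.mem_union.1 hw with h | h
      · exact (Finset.mem_filter.1 h).2
      · exact hadj v hv w (Finset.mem_compl.1 h)
    have h2 := Finset.card_le_card h1
    rw [Finset.card_union_of_disjoint, hK2, SimpleGraph.card_neighborFinset_eq_degree] at h2
    · have := hd v; omega
    · rw [Finset.disjoint_left]
      intro w hw hw'
      exact (Finset.mem_compl.1 hw') (Finset.mem_filter.1 hw).1
  have hm2 : ∀ v ∈ K1ᶜ, (K1ᶜ.filter (fun w => F.Adj v w)).card ≤ 1 := by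
    intro v hv
    have h1 : K1ᶜ.filter (fun w => F.Adj v w) ∪ K1 ⊆ F.neighborFinset v := by
      intro w hw
      rw [SimpleGraph.mem_neighborFinset]
      rcases Finset.mem_union.1 hw with h | h
      · exact (Finset.mem_filter.1 h).2
      · exact (hadj w h v (Finset.mem_compl.1 hv)).symm
    have h2 := Finset.card_le_card h1
    rw [Finset.card_union_of_disjoint, hK1, SimpleGraph.card_neighborFinset_eq_degree] at h2
    · have := hd v; omega
    · rw [Finset.disjoint_left]
      intro w hw hw'
      exact (Finset.mem_compl.1 (Finset.mem_filter.1 hw).1) hw'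
  obtain ⟨f1, hf1, hc1⟩ := greedy3 F K1 (by omega) hm1
  obtain ⟨f2, hf2, hc2⟩ := greedy3 F K1ᶜ (by omega) hm2
  refine ⟨fun v => if v ∈ K1 then ⟨(f1 v).1, by omega⟩ else ⟨3 + (f2 v).1, by omega⟩, ?_, ?_⟩
  · intro v w hvw
    by_cases h1 : v ∈ K1 <;> by_cases h2 : w ∈ K1
    · simp only [h1, h2, if_true]
      intro h
      exact hf1 v h1 w h2 hvw (Fin.ext (Fin.mk.inj h))
    · simp only [h1, h2, if_true, if_false]
      intro h
      have := Fin.mk.inj h
      omega
    · simp only [h1, h2, if_true, if_false]
      intro h
      have := Fin.mk.inj h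
      omega
    · simp only [h1, h2, if_false]
      intro h
      have := Fin.mk.inj h
      exact hf2 v (Finset.mem_compl.2 h1) w (Finset.mem_compl.2 h2) hvw (Fin.ext (by omega))
  · intro c
    by_cases hc : c.1 < 3
    · refine le_trans (Finset.card_le_card ?_) (hc1 ⟨c.1, hc⟩)
      intro v hv
      have hv2 := (Finset.mem_filter.1 hv).2
      beta_reduce at hv2
      by_cases h1 : v ∈ K1
      · rw [if_pos h1] at hv2
        have h3 : (f1 v).1 = c.1 := congrArg Fin.val hv2
        exact Finset.mem_filter.2 ⟨h1, Fin.ext h3⟩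
      · rw [if_neg h1] at hv2
        rw [← hv2] at hc
        simp at hc
    · by_cases hc' : c.1 < 6
      · refine le_trans (Finset.card_le_card ?_) (hc2 ⟨c.1 - 3, by omega⟩)
        intro v hv
        have hv2 := (Finset.mem_filter.1 hv).2
        beta_reduce at hv2
        by_cases h1 : v ∈ K1
        · rw [if_pos h1] at hv2
          rw [← hv2] at hc
          simp at hc
        · rw [if_neg h1] at hv2
          have h3 : 3 + (f2 v).1 = c.1 := congrArg Fin.val hv2
          exact Finset.mem_filter.2 ⟨Finset.mem_compl.2 h1, Fin.ext (by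
            show (f2 v).1 = c.1 - 3
            omega)⟩
      · refine le_trans (le_of_eq (Finset.card_eq_zero.2 ?_)) (Nat.zero_le 3)
        apply Finset.filter_eq_empty_iff.2
        intro v _ hv2
        beta_reduce at hv2
        by_cases h1 : v ∈ K1
        · rw [if_pos h1] at hv2
          rw [← hv2] at hc
          simp at hc
        · rw [if_neg h1] at hv2
          rw [← hv2] at hc'
          simp at hc'
          omega

omit [Fintype V] in
/-- case of six universal vertices outside `u`: the colouring -/
theorem trip_col (u I T : Finset V) (hu : u.card = 5) (hI : I.card = 6)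
    (hIT : Disjoint I T) (huT : Disjoint u T) (huI : Disjoint u I)
    (hcov : ∀ v, v ∈ u ∨ v ∈ I ∨ v ∈ T) :
    ∃ φ : V → Fin 7, (∀ v, φ v = 6 ↔ v ∈ T) ∧
      (∀ v ∈ I, ∀ w ∈ I, φ v = φ w → v = w) ∧ (∀ v ∈ u, ∀ w ∈ u, φ v = φ w → v = w) := by
  classical
  have eI : {x // x ∈ I} ≃ Fin 6 := Fintype.equivFinOfCardEq (by rw [Fintype.card_coe, hI])
  have eu : {x // x ∈ u} ≃ Fin 5 := Fintype.equivFinOfCardEq (by rw [Fintype.card_coe, hu])
  refine ⟨fun v => if h : v ∈ I then ⟨(eI ⟨v, h⟩).1, by omega⟩
    else if h' : v ∈ u then ⟨(eu ⟨v, h'⟩).1, by omega⟩ else 6, ?_, ?_, ?_⟩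
  · intro v
    by_cases h : v ∈ I
    · simp only [h, dif_pos]
      constructor
      · intro h'
        have h1 := congrArg Fin.val h'
        have h2 := (eI ⟨v, h⟩).2
        have h3 : ((6 : Fin 7) : ℕ) = 6 := rfl
        rw [h3] at h1
        simp only at h1
        omega
      · intro h'
        exact absurd h' (Finset.disjoint_left.1 hIT h)
    · by_cases h' : v ∈ u
      · simp only [h, h', dif_pos, dif_neg, not_false_eq_true]
        constructor
        · intro h''
          have h1 := congrArg Fin.val h''
          have h2 := (eu ⟨v, h'⟩).2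
          have h3 : ((6 : Fin 7) : ℕ) = 6 := rfl
          rw [h3] at h1
          simp only at h1
          omega
        · intro h''
          exact absurd h'' (Finset.disjoint_left.1 huT h')
      · simp only [h, h', dif_neg, not_false_eq_true, true_iff]
        have := hcov v
        tauto
  · intro v hv w hw hvw
    simp only [hv, hw, dif_pos] at hvw
    have := eI.injective (Fin.ext (Fin.mk.inj hvw))
    exact congrArg Subtype.val this
  · intro v hv w hw hvw
    have hv' : v ∉ I := Finset.disjoint_left.1 huI hv
    have hw' : w ∉ I := Finset.disjoint_left.1 huI hw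
    simp only [hv, hw, hv', hw', dif_pos, dif_neg, not_false_eq_true] at hvw
    have := eu.injective (Fin.ext (Fin.mk.inj hvw))
    exact congrArg Subtype.val this

/-- Every graph on 14 vertices with maximum degree at most 8 and no `K_8` is 7-colourable. -/
theorem seven_col (hV : Fintype.card V = 14) (F : SimpleGraph V) [DecidableRel F.Adj]
    (hd : ∀ v, F.degree v ≤ 8) (hK : F.CliqueFree 8) :
    ∃ φ : V → Fin 7, ∀ v w, F.Adj v w → φ v ≠ φ w := by
  classical
  rcases structure14 hV F hd hK with ⟨σ, hσ⟩ | ⟨K1, h1, h2⟩ |
    ⟨u, I, T, hu, hI, hT, huI, huT, hIT, hcov, hIadj, hTind⟩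
  · obtain ⟨φ, _, hφ⟩ := pairing_col hV σ (fun v => ⟨(hσ v).1, (hσ v).2.1⟩)
    refine ⟨φ, fun v w hvw heq => ?_⟩
    rcases (hφ v w).1 heq with rfl | rfl
    · exact hvw.ne rfl
    · exact (hσ v).2.2 hvw
  · obtain ⟨φ, hφ, _⟩ := bip_col hV F hd K1 h1 h2
    exact ⟨φ, hφ⟩
  · obtain ⟨φ, h6, hφI, hφu⟩ := trip_col u I T hu hI hIT huT huI hcov
    refine ⟨φ, fun v w hvw heq => ?_⟩
    by_cases hvT : v ∈ T
    · have : w ∈ T := by
        rw [← h6, ← heq, h6]; exact hvT
      exact hTind v hvT w this hvw
    · have hwT : w ∉ T := by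
        rw [← h6, ← heq, h6]; exact hvT
      have hv := hcov v
      have hw := hcov w
      rcases hv with hv | hv | hv
      · rcases hw with hw | hw | hw
        · exact hvw.ne (hφu v hv w hw heq)
        · have := (hIadj w hw v hvw.ne).1 hvw.symm
          exact this hv
        · exact hwT hw
      · rcases hw with hw | hw | hw
        · have := (hIadj v hv w hvw.ne.symm).1 hvw
          exact this hw
        · exact hvw.ne (hφI v hv w hw heq)
        · exact hwT hw
      · exact hvT hv

end Pool.Agent.helper88.BK
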