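import Pool.Agent.helper88.BK.Ext

/-!
The exchange argument.
-/

namespace Pool.Agent.helper88.BK

open Finset

variable {R A : Type} [Fintype R] [DecidableEq R] [Fintype A] [DecidableEq A]

omit [Fintype A] in
theorem no_three (N : R → Finset A)
    (h2 : ∀ a, (Finset.univ.filter (fun r => a ∈ N r)).card ≤ 2) {a : A} {p q r : R}
    (hp : a ∈ N p) (hq : a ∈ N q) (hr : a ∈ N r) (hpq : p ≠ q) (hpr : p ≠ r) (hqr : q ≠ r) :
    False := by
  have h1 : ({p, q, r} : Finset R) ⊆ Finset.univ.filter (fun r => a ∈ N r) := by
    intro z hz
    simp only [Finset.mem_insert, Finset.mem_singleton] at hz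
    rcases hz with rfl | rfl | rfl <;> simp [*]
  have h3 := (Finset.card_le_card h1).trans (h2 a)
  rw [Finset.card_eq_three.2 ⟨p, q, r, hpq, hpr, hqr, rfl⟩] at h3
  omega

/-- re-pairing: swap the partner of `x` with `z` -/
theorem swap_fiber (H : SimpleGraph R) (φ : R → Fin 7) (σ : R → R)
    (hσ : ∀ v, σ (σ v) = v ∧ v ≠ σ v) (hφ : ∀ v w, φ v = φ w ↔ (w = v ∨ w = σ v))
    (hprop : ∀ v w, H.Adj v w → φ v ≠ φ w) (x z : R) (hxz : φ x ≠ φ z)
    (h1 : ¬ H.Adj x z) (h2 : ¬ H.Adj (σ x) (σ z)) :
    ∃ φ' : R → Fin 7, (∀ v w, H.Adj v w → φ' v ≠ φ' w) ∧ φ' (σ x) = φ z ∧ φ' z = φ x ∧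
      ∀ r, r ≠ σ x → r ≠ z → φ' r = φ r := by
  have hyz : σ x ≠ z := by
    rintro rfl
    exact hxz ((hφ x (σ x)).2 (Or.inr rfl))
  refine ⟨fun r => if r = σ x then φ z else if r = z then φ x else φ r, ?_, ?_, ?_, ?_⟩
  · intro v w hvw heq
    simp only at heq
    by_cases hv1 : v = σ x
    · rw [if_pos hv1] at heq
      by_cases hw1 : w = σ x
      · exact hvw.ne (hv1.trans hw1.symm)
      · rw [if_neg hw1] at heq
        by_cases hw2 : w = z
        · rw [if_pos hw2] at heq
          exact hxz heq.symm
        · rw [if_neg hw2] at heq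
          rcases (hφ z w).1 heq with h | h
          · exact hw2 h
          · rw [hv1, h] at hvw
            exact h2 hvw
    · rw [if_neg hv1] at heq
      by_cases hv2 : v = z
      · rw [if_pos hv2] at heq
        by_cases hw1 : w = σ x
        · rw [if_pos hw1] at heq
          exact hxz heq
        · rw [if_neg hw1] at heq
          by_cases hw2 : w = z
          · exact hvw.ne (hv2.trans hw2.symm)
          · rw [if_neg hw2] at heq
            rcases (hφ x w).1 heq with h | h
            · rw [hv2, h] at hvw
              exact h1 hvw.symm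
            · exact hw1 h
      · rw [if_neg hv2] at heq
        by_cases hw1 : w = σ x
        · rw [if_pos hw1] at heq
          rcases (hφ z v).1 heq.symm with h | h
          · exact hv2 h
          · rw [hw1, h] at hvw
            exact h2 hvw.symm
        · rw [if_neg hw1] at heq
          by_cases hw2 : w = z
          · rw [if_pos hw2] at heq
            rcases (hφ x v).1 heq.symm with h | h
            · rw [hw2, h] at hvw
              exact h1 hvw
            · exact hv1 h
          · rw [if_neg hw2] at heq
            exact hprop v w hvw heq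
  · simp
  · simp [hyz.symm]
  · intro r hr1 hr2
    simp [hr1, hr2]

theorem exchange (hA : Fintype.card A = 7) (H : SimpleGraph R) [DecidableRel H.Adj]
    (N : R → Finset A)
    (h2 : ∀ a, (Finset.univ.filter (fun r => a ∈ N r)).card ≤ 2)
    (hd : ∀ r, H.degree r + (N r).card ≤ 8)
    (φ : R → Fin 7) (hsurj : Function.Surjective φ) (σ : R → R)
    (hσ : ∀ v, σ (σ v) = v ∧ v ≠ σ v) (hφ : ∀ v w, φ v = φ w ↔ (w = v ∨ w = σ v))
    (hprop : ∀ v w, H.Adj v w → φ v ≠ φ w)
    (S : Finset A) (hS : S.card = 6) (x x' : R) (hxx : φ x ≠ φ x')
    (h1 : N x ∪ N (σ x) = S) (h1' : N x' ∪ N (σ x') = S)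
    (hx : (N x).Nonempty) (hy : (N (σ x)).Nonempty) :
    ∃ φ' : R → Fin 7, (∀ v w, H.Adj v w → φ' v ≠ φ' w) ∧
      (∀ c, (NC N φ' c).card ≤ 6) ∧
      (∀ c c', c ≠ c' → (NC N φ' c ∩ NC N φ' c').card ≤ 5) := by
  classical
  have hSc : (Sᶜ).card = 1 := by rw [Finset.card_compl, hA, hS]
  -- colours
  have hφy : φ (σ x) = φ x := ((hφ x (σ x)).2 (Or.inr rfl)).symm
  have hφy' : φ (σ x') = φ x' := ((hφ x' (σ x')).2 (Or.inr rfl)).symm
  have hSx : ∀ a, a ∈ S → a ∈ N x ∨ a ∈ N (σ x) := by
    intro a ha; rw [← h1] at ha; exact Finset.mem_union.1 ha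
  have hSx' : ∀ a, a ∈ S → a ∈ N x' ∨ a ∈ N (σ x') := by
    intro a ha; rw [← h1'] at ha; exact Finset.mem_union.1 ha
  have hxS : N x ⊆ S := by rw [← h1]; exact Finset.subset_union_left
  have hyS : N (σ x) ⊆ S := by rw [← h1]; exact Finset.subset_union_right
  have hxS' : N x' ⊆ S := by rw [← h1']; exact Finset.subset_union_left
  have hyS' : N (σ x') ⊆ S := by rw [← h1']; exact Finset.subset_union_right
  -- helper: vertices of different colours are different
  have hne : ∀ p q, φ p ≠ φ q → p ≠ q := fun p q h h' => h (by rw [h'])
  have hout : ∀ r, φ r ≠ φ x → φ r ≠ φ x' → ∀ a ∈ N r, a ∉ S := by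
    intro r hr hr' a har haS
    rcases hSx a haS with ha | ha <;> rcases hSx' a haS with ha' | ha'
    · exact no_three N h2 har ha ha' (hne _ _ hr) (hne _ _ hr') (hne _ _ hxx)
    · exact no_three N h2 har ha ha' (hne _ _ hr) (hne _ _ (by rwa [hφy']))
        (hne _ _ (by rwa [hφy']))
    · exact no_three N h2 har ha ha' (hne _ _ (by rwa [hφy])) (hne _ _ hr')
        (hne _ _ (by rwa [hφy]))
    · exact no_three N h2 har ha ha' (hne _ _ (by rwa [hφy])) (hne _ _ (by rwa [hφy']))
        (hne _ _ (by rwa [hφy, hφy']))
  have hdis : Disjoint (N x) (N (σ x)) := by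
    rw [Finset.disjoint_left]
    intro a ha hb
    rcases hSx' a (hxS ha) with ha' | ha'
    · exact no_three N h2 ha hb ha' (hσ x).2 (hne _ _ hxx) (hne _ _ (by rwa [hφy]))
    · exact no_three N h2 ha hb ha' (hσ x).2 (hne _ _ (by rwa [hφy']))
        (hne _ _ (by rwa [hφy, hφy']))
  have hdis' : Disjoint (N x') (N (σ x')) := by
    rw [Finset.disjoint_left]
    intro a ha hb
    rcases hSx a (hxS' ha) with ha' | ha'
    · exact no_three N h2 ha hb ha' (hσ x').2 (hne _ _ hxx.symm)
        (hne _ _ (by rw [hφy']; exact hxx.symm))
    · exact no_three N h2 ha hb ha' (hσ x').2 (hne _ _ (by rw [hφy]; exact hxx.symm))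
        (hne _ _ (by rw [hφy, hφy']; exact hxx.symm))
  have hsum : (N x).card + (N (σ x)).card = 6 := by
    rw [← Finset.card_union_of_disjoint hdis, h1, hS]
  have hx5 : (N x).card ≤ 5 := by have := Finset.card_pos.2 hy; omega
  have hy5 : (N (σ x)).card ≤ 5 := by have := Finset.card_pos.2 hx; omega
  by_cases hblock : ∃ u, φ u ≠ φ x ∧ φ u ≠ φ x' ∧ ¬ H.Adj x u ∧ ¬ H.Adj (σ x) (σ u)
  · obtain ⟨u, hu1, hu2, hu3, hu4⟩ := hblock
    obtain ⟨φ', hp', hp1, hp2, hp3⟩ :=
      swap_fiber H φ σ hσ hφ hprop x u hu1.symm hu3 hu4
    have key : ∀ r e a, φ' r = e → a ∈ N r →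
        (e = φ x ∧ (a ∈ N x ∨ a ∉ S)) ∨ (e = φ u ∧ (a ∈ N (σ x) ∨ a ∉ S)) ∨
        (e = φ x' ∧ a ∈ S) ∨ (e ≠ φ x' ∧ a ∉ S) := by
      intro r e a hre har
      by_cases hr1 : r = σ x
      · subst hr1
        right; left
        exact ⟨by rw [← hre, hp1], Or.inl har⟩
      · by_cases hr2 : r = u
        · subst hr2
          left
          exact ⟨by rw [← hre, hp2], Or.inr (hout _ hu1 hu2 a har)⟩
        · rw [hp3 r hr1 hr2] at hre
          by_cases hr3 : φ r = φ x
          · rcases (hφ x r).1 hr3.symm with h | h
            · subst h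
              left; exact ⟨hre.symm, Or.inl har⟩
            · exact absurd h hr1
          · by_cases hr4 : φ r = φ x'
            · right; right; left
              refine ⟨by rw [← hre, hr4], ?_⟩
              rcases (hφ x' r).1 hr4.symm with h | h
              · subst h; exact hxS' har
              · subst h; exact hyS' har
            · right; right; right
              exact ⟨by rw [← hre]; exact hr4, hout r hr3 hr4 a har⟩
    have keyNC : ∀ e a, a ∈ NC N φ' e →
        (e = φ x ∧ (a ∈ N x ∨ a ∉ S)) ∨ (e = φ u ∧ (a ∈ N (σ x) ∨ a ∉ S)) ∨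
        (e = φ x' ∧ a ∈ S) ∨ (e ≠ φ x' ∧ a ∉ S) := by
      intro e a ha
      obtain ⟨r, hr, har⟩ := (mem_NC N φ' e a).1 ha
      exact key r e a hr har
    refine ⟨φ', hp', ?_, ?_⟩
    · intro e
      by_cases he1 : e = φ x
      · have : NC N φ' e ⊆ N x ∪ Sᶜ := by
          intro a ha
          rw [Finset.mem_union, Finset.mem_compl]
          rcases keyNC e a ha with ⟨_, h⟩ | ⟨h, _⟩ | ⟨h, _⟩ | ⟨_, h⟩
          · exact h
          · exact absurd (h.symm.trans he1) hu1
          · exact absurd (he1.symm.trans h) hxx
          · exact Or.inr h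
        have h3 := (Finset.card_le_card this).trans (Finset.card_union_le _ _)
        omega
      · by_cases he2 : e = φ u
        · have : NC N φ' e ⊆ N (σ x) ∪ Sᶜ := by
            intro a ha
            rw [Finset.mem_union, Finset.mem_compl]
            rcases keyNC e a ha with ⟨h, _⟩ | ⟨_, h⟩ | ⟨h, _⟩ | ⟨_, h⟩
            · exact absurd h he1
            · exact h
            · exact absurd (he2.symm.trans h) hu2
            · exact Or.inr h
          have h3 := (Finset.card_le_card this).trans (Finset.card_union_le _ _)
          omega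
        · by_cases he3 : e = φ x'
          · have : NC N φ' e ⊆ S := by
              intro a ha
              rcases keyNC e a ha with ⟨h, _⟩ | ⟨h, _⟩ | ⟨_, h⟩ | ⟨h, _⟩
              · exact absurd h he1
              · exact absurd h he2
              · exact h
              · exact absurd he3 h
            have h3 := Finset.card_le_card this
            omega
          · have : NC N φ' e ⊆ Sᶜ := by
              intro a ha
              rw [Finset.mem_compl]
              rcases keyNC e a ha with ⟨h, _⟩ | ⟨h, _⟩ | ⟨h, _⟩ | ⟨_, h⟩
              · exact absurd h he1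
              · exact absurd h he2
              · exact absurd h he3
              · exact h
            have h3 := Finset.card_le_card this
            omega
    · intro e e' hee
      -- the intersection is contained in `N x`, `N (σ x)` or `Sᶜ`
      have hcase : NC N φ' e ∩ NC N φ' e' ⊆ Sᶜ ∨ NC N φ' e ∩ NC N φ' e' ⊆ N x ∨
          NC N φ' e ∩ NC N φ' e' ⊆ N (σ x) := by
        by_cases hex' : e = φ x' ∨ e' = φ x'
        · -- one of them is contained in `S`
          have hsym : ∀ e e', e ≠ e' → e = φ x' → NC N φ' e ∩ NC N φ' e' ⊆ Sᶜ ∨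
              NC N φ' e ∩ NC N φ' e' ⊆ N x ∨ NC N φ' e ∩ NC N φ' e' ⊆ N (σ x) := by
            intro e e' hee he
            have hin : ∀ a ∈ NC N φ' e, a ∈ S := by
              intro a ha
              rcases keyNC e a ha with ⟨h, _⟩ | ⟨h, _⟩ | ⟨_, h⟩ | ⟨h, _⟩
              · exact absurd (h.symm.trans he) hxx
              · exact absurd (h.symm.trans he) hu2
              · exact h
              · exact absurd he h
            by_cases he1 : e' = φ x
            · right; left
              intro a ha
              obtain ⟨ha1, ha2⟩ := Finset.mem_inter.1 ha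
              rcases keyNC e' a ha2 with ⟨_, h⟩ | ⟨h, _⟩ | ⟨h, _⟩ | ⟨_, h⟩
              · rcases h with h | h
                · exact h
                · exact absurd (hin a ha1) h
              · exact absurd (h.symm.trans he1) hu1
              · exact absurd (he.trans h.symm) hee
              · exact absurd (hin a ha1) h
            · by_cases he2 : e' = φ u
              · right; right
                intro a ha
                obtain ⟨ha1, ha2⟩ := Finset.mem_inter.1 ha
                rcases keyNC e' a ha2 with ⟨h, _⟩ | ⟨_, h⟩ | ⟨h, _⟩ | ⟨_, h⟩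
                · exact absurd h he1
                · rcases h with h | h
                  · exact h
                  · exact absurd (hin a ha1) h
                · exact absurd (he.trans h.symm) hee
                · exact absurd (hin a ha1) h
              · left
                intro a ha
                obtain ⟨ha1, ha2⟩ := Finset.mem_inter.1 ha
                rw [Finset.mem_compl]
                rcases keyNC e' a ha2 with ⟨h, _⟩ | ⟨h, _⟩ | ⟨h, _⟩ | ⟨_, h⟩
                · exact absurd h he1
                · exact absurd h he2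
                · exact absurd (he.trans h.symm) hee
                · exact h
          rcases hex' with he | he
          · exact hsym e e' hee he
          · have := hsym e' e hee.symm he
            rwa [Finset.inter_comm] at this
        · push Not at hex'
          left
          intro a ha
          obtain ⟨ha1, ha2⟩ := Finset.mem_inter.1 ha
          rw [Finset.mem_compl]
          rcases keyNC e a ha1 with ⟨h, h'⟩ | ⟨h, h'⟩ | ⟨h, _⟩ | ⟨_, h⟩
          · rcases h' with h' | h'
            · rcases keyNC e' a ha2 with ⟨g, _⟩ | ⟨g, g'⟩ | ⟨g, _⟩ | ⟨_, g⟩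
              · exact absurd (h.trans g.symm) hee
              · rcases g' with g' | g'
                · exact absurd g' (Finset.disjoint_left.1 hdis h')
                · exact g'
              · exact absurd g hex'.2
              · exact g
            · exact h'
          · rcases h' with h' | h'
            · rcases keyNC e' a ha2 with ⟨g, g'⟩ | ⟨g, _⟩ | ⟨g, _⟩ | ⟨_, g⟩
              · rcases g' with g' | g'
                · exact absurd h' (Finset.disjoint_left.1 hdis g')
                · exact g'
              · exact absurd (h.trans g.symm) hee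
              · exact absurd g hex'.2
              · exact g
            · exact h'
          · exact absurd h hex'.1
          · exact h
      rcases hcase with h | h | h
      · have := Finset.card_le_card h; omega
      · have := Finset.card_le_card h; omega
      · have := Finset.card_le_card h; omega
  · -- all pairs are blocked
    push Not at hblock
    set wt : R → ℕ := fun z => (if H.Adj x z then 1 else 0) + (if H.Adj (σ x) z then 1 else 0)
      with hwt
    have hwsum : ∑ z, wt z ≤ 10 := by
      have e1 : ∑ z, wt z = H.degree x + H.degree (σ x) := by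
        rw [hwt, Finset.sum_add_distrib]
        congr 1
        · rw [Finset.sum_boole, ← SimpleGraph.card_neighborFinset_eq_degree,
            SimpleGraph.neighborFinset_eq_filter]
          rfl
        · rw [Finset.sum_boole, ← SimpleGraph.card_neighborFinset_eq_degree,
            SimpleGraph.neighborFinset_eq_filter]
          rfl
      have e2 := hd x
      have e3 := hd (σ x)
      omega
    have hfib : ∑ z, wt z = ∑ c : Fin 7, ∑ z ∈ Finset.univ.filter (fun z => φ z = c), wt z := by
      rw [Finset.sum_fiberwise]
    have hge2 : ∀ c, c ≠ φ x → c ≠ φ x' →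
        2 ≤ ∑ z ∈ Finset.univ.filter (fun z => φ z = c), wt z := by
      intro c hc hc'
      obtain ⟨u, rfl⟩ := hsurj c
      have e1 : Finset.univ.filter (fun z => φ z = φ u) = {u, σ u} := by
        ext z
        simp only [Finset.mem_filter, Finset.mem_univ, true_and, Finset.mem_insert,
          Finset.mem_singleton]
        rw [eq_comm, hφ]
      have hφσ : φ (σ u) = φ u := ((hφ u (σ u)).2 (Or.inr rfl)).symm
      rw [e1, Finset.sum_pair (hσ u).2]
      have b1 := hblock u hc hc'
      have b2 := hblock (σ u) (by rwa [hφσ]) (by rwa [hφσ])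
      rw [(hσ u).1] at b2
      simp only [hwt]
      by_cases g1 : H.Adj x u <;> by_cases g2 : H.Adj x (σ u) <;>
        by_cases g3 : H.Adj (σ x) u <;> by_cases g4 : H.Adj (σ x) (σ u) <;>
        simp [g1, g2, g3, g4] <;> simp_all
    have hzero : ∑ z ∈ Finset.univ.filter (fun z => φ z = φ x'), wt z = 0 := by
      have e1 : ∑ c : Fin 7, ∑ z ∈ Finset.univ.filter (fun z => φ z = c), wt z
          = ∑ z ∈ Finset.univ.filter (fun z => φ z = φ x'), wt z +
            ∑ c ∈ Finset.univ.erase (φ x'),
              ∑ z ∈ Finset.univ.filter (fun z => φ z = c), wt z :=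
        (Finset.add_sum_erase Finset.univ
          (fun c => ∑ z ∈ Finset.univ.filter (fun z => φ z = c), wt z)
          (Finset.mem_univ (φ x'))).symm
      have e2 : 10 ≤ ∑ c ∈ Finset.univ.erase (φ x'),
              ∑ z ∈ Finset.univ.filter (fun z => φ z = c), wt z := by
        calc 10 = ∑ c ∈ (Finset.univ.erase (φ x')).erase (φ x), 2 := by
              rw [Finset.sum_const, Finset.card_erase_of_mem, Finset.card_erase_of_mem
                (Finset.mem_univ _), Finset.card_univ, Fintype.card_fin]
              · rfl
              · simp [hxx]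
          _ ≤ ∑ c ∈ (Finset.univ.erase (φ x')).erase (φ x),
                ∑ z ∈ Finset.univ.filter (fun z => φ z = c), wt z := by
              apply Finset.sum_le_sum
              intro c hc
              simp only [Finset.mem_erase, Finset.mem_univ, and_true] at hc
              exact hge2 c hc.1 hc.2
          _ ≤ _ := Finset.sum_le_sum_of_subset (Finset.erase_subset _ _)
      rw [hfib, e1] at hwsum
      omega
    have hz0 : ∀ z, φ z = φ x' → ¬ H.Adj x z ∧ ¬ H.Adj (σ x) z := by
      intro z hz
      have := (Finset.sum_eq_zero_iff.1 hzero) z (by simp [hz])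
      simp only [hwt] at this
      by_cases g1 : H.Adj x z <;> by_cases g2 : H.Adj (σ x) z <;> simp [g1, g2] at this ⊢
    -- inner swap
    obtain ⟨z, hz, hzS⟩ : ∃ z, φ z = φ x' ∧ ¬ (N x ∪ N z = S ∧ N (σ x) ∪ N (σ z) = S) := by
      by_contra hcon
      push Not at hcon
      obtain ⟨k1, k2⟩ := hcon x' rfl
      obtain ⟨k3, k4⟩ := hcon (σ x') hφy'
      rw [(hσ x').1] at k4
      -- N (σ x') ⊆ N x
      have hsub : S ⊆ N x := by
        intro a ha
        rw [← k3] at ha
        rcases Finset.mem_union.1 ha with h | h
        · exact h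
        · by_contra hax
          have haS := hyS' h
          rcases hSx a haS with g | g
          · exact hax g
          · -- a ∈ N (σ x), a ∈ N (σ x'), so a ∉ N x'
            have : a ∈ N x ∪ N x' := by rw [k1]; exact haS
            rcases Finset.mem_union.1 this with g' | g'
            · exact hax g'
            · exact Finset.disjoint_left.1 hdis' g' h
      have := Finset.card_le_card hsub
      omega
    have hzφ : φ x ≠ φ z := by rw [hz]; exact hxx
    have hσz : φ (σ z) = φ x' := by rw [← hz]; exact ((hφ z (σ z)).2 (Or.inr rfl)).symm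
    obtain ⟨φ', hp', hp1, hp2, hp3⟩ :=
      swap_fiber H φ σ hσ hφ hprop x z hzφ (hz0 z hz).1 (hz0 _ hσz).2
    have hzin : N z ⊆ S := by
      rcases (hφ x' z).1 hz.symm with h | h
      · rw [h]; exact hxS'
      · rw [h]; exact hyS'
    have hσzin : N (σ z) ⊆ S := by
      rcases (hφ x' (σ z)).1 hσz.symm with h | h
      · rw [h]; exact hxS'
      · rw [h]; exact hyS'
    have keyNC : ∀ e a, a ∈ NC N φ' e →
        (e = φ x ∧ a ∈ N x ∪ N z) ∨ (e = φ x' ∧ a ∈ N (σ x) ∪ N (σ z)) ∨
        (e ≠ φ x ∧ e ≠ φ x' ∧ a ∉ S) := by
      intro e a ha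
      obtain ⟨r, hre, har⟩ := (mem_NC N φ' e a).1 ha
      by_cases hr1 : r = σ x
      · subst hr1
        right; left
        exact ⟨by rw [← hre, hp1, hz], Finset.mem_union_left _ har⟩
      · by_cases hr2 : r = z
        · subst hr2
          left
          exact ⟨by rw [← hre, hp2], Finset.mem_union_right _ har⟩
        · rw [hp3 r hr1 hr2] at hre
          by_cases hr3 : φ r = φ x
          · rcases (hφ x r).1 hr3.symm with h | h
            · subst h
              left; exact ⟨hre.symm, Finset.mem_union_left _ har⟩
            · exact absurd h hr1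
          · by_cases hr4 : φ r = φ x'
            · right; left
              refine ⟨by rw [← hre, hr4], ?_⟩
              rcases (hφ z r).1 (by rw [hz, hr4]) with h | h
              · exact absurd h hr2
              · rw [← h]; exact Finset.mem_union_right _ har
            · right; right
              exact ⟨by rw [← hre]; exact hr3, by rw [← hre]; exact hr4,
                hout r hr3 hr4 a har⟩
    have c1 : N x ∪ N z ⊆ S := Finset.union_subset hxS hzin
    have c2 : N (σ x) ∪ N (σ z) ⊆ S := Finset.union_subset hyS hσzin
    refine ⟨φ', hp', ?_, ?_⟩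
    · intro e
      by_cases he : e = φ x ∨ e = φ x'
      · have : NC N φ' e ⊆ S := by
          intro a ha
          rcases keyNC e a ha with ⟨_, h⟩ | ⟨_, h⟩ | ⟨h, h', _⟩
          · exact c1 h
          · exact c2 h
          · tauto
        have := Finset.card_le_card this
        omega
      · have : NC N φ' e ⊆ Sᶜ := by
          intro a ha
          rw [Finset.mem_compl]
          rcases keyNC e a ha with ⟨h, _⟩ | ⟨h, _⟩ | ⟨_, _, h⟩
          · tauto
          · tauto
          · exact h
        have := Finset.card_le_card this
        omega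
    · intro e e' hee
      by_contra hcon
      push Not at hcon
      have hsubcase : ∀ e, (e ≠ φ x ∧ e ≠ φ x') → (NC N φ' e).card ≤ 1 := by
        intro e he
        have : NC N φ' e ⊆ Sᶜ := by
          intro a ha
          rw [Finset.mem_compl]
          rcases keyNC e a ha with ⟨h, _⟩ | ⟨h, _⟩ | ⟨_, _, h⟩
          · exact absurd h he.1
          · exact absurd h he.2
          · exact h
        have := Finset.card_le_card this
        omega
      have hle1 : (NC N φ' e ∩ NC N φ' e').card ≤ (NC N φ' e).card :=
        Finset.card_le_card Finset.inter_subset_left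
      have hle2 : (NC N φ' e ∩ NC N φ' e').card ≤ (NC N φ' e').card :=
        Finset.card_le_card Finset.inter_subset_right
      have he1 : e = φ x ∨ e = φ x' := by
        by_contra h
        push Not at h
        have := hsubcase e h
        omega
      have he2 : e' = φ x ∨ e' = φ x' := by
        by_contra h
        push Not at h
        have := hsubcase e' h
        omega
      have hfull : ∀ e e', e = φ x → e' = φ x' → 5 < (NC N φ' e ∩ NC N φ' e').card → False := by
        intro e e' he he' hc
        have i1 : NC N φ' e ∩ NC N φ' e' ⊆ N x ∪ N z := by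
          intro a ha
          obtain ⟨ha1, ha2⟩ := Finset.mem_inter.1 ha
          rcases keyNC e a ha1 with ⟨_, h⟩ | ⟨h, _⟩ | ⟨h, _, _⟩
          · exact h
          · exact absurd (he.symm.trans h) hxx
          · exact absurd he h
        have i2 : NC N φ' e ∩ NC N φ' e' ⊆ N (σ x) ∪ N (σ z) := by
          intro a ha
          obtain ⟨ha1, ha2⟩ := Finset.mem_inter.1 ha
          rcases keyNC e' a ha2 with ⟨h, _⟩ | ⟨_, h⟩ | ⟨_, h, _⟩
          · exact absurd (h.symm.trans he') hxx
          · exact h
          · exact absurd he' h
        have j1 := Finset.card_le_card i1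
        have j2 := Finset.card_le_card i2
        apply hzS
        constructor
        · exact Finset.eq_of_subset_of_card_le c1 (by omega)
        · exact Finset.eq_of_subset_of_card_le c2 (by omega)
      rcases he1 with he1 | he1 <;> rcases he2 with he2 | he2
      · exact hee (he1.trans he2.symm)
      · exact hfull e e' he1 he2 hcon
      · exact hfull e' e he2 he1 (by rw [Finset.inter_comm]; exact hcon)
      · exact hee (he1.trans he2.symm)

end Pool.Agent.helper88.BK
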