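import Pool.Agent.helper88.BK.Col
import Pool.Agent.helper88.BK.Exch

/-!
Core theorem: extending a colouring from `R` (14 vertices) to the clique `A` (7 vertices).
-/

namespace Pool.Agent.helper88.BK

open Finset

variable {R A : Type} [Fintype R] [DecidableEq R] [Fintype A] [DecidableEq A]

omit [DecidableEq R] in
theorem clique_deg (F : SimpleGraph R) [DecidableRel F.Adj] {n : ℕ} {s : Finset R}
    (hs : F.IsNClique n s) {v : R} (hv : v ∈ s) : n ≤ F.degree v + 1 := by
  classical
  have h1 : s.erase v ⊆ F.neighborFinset v := by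
    intro w hw
    rw [Finset.mem_erase] at hw
    rw [SimpleGraph.mem_neighborFinset]
    exact hs.1 hv hw.2 hw.1.symm
  have h2 := Finset.card_le_card h1
  rw [Finset.card_erase_of_mem hv, SimpleGraph.card_neighborFinset_eq_degree, hs.2] at h2
  omega

/-- The case of twins: two vertices joined to the same six vertices of the clique. -/
theorem twin_case (hR : Fintype.card R = 14) (hA : Fintype.card A = 7)
    (H : SimpleGraph R) [DecidableRel H.Adj] (N : R → Finset A)
    (h2 : ∀ a, (Finset.univ.filter (fun r => a ∈ N r)).card ≤ 2)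
    (hd : ∀ r, H.degree r + (N r).card ≤ 8) (hK : H.CliqueFree 8)
    (hadj : ∀ x y, H.Adj x y → (N x ∩ N y).card ≤ 5)
    (x x' : R) (hne : x ≠ x') (hx : (N x).card = 6) (hxx : N x = N x') :
    ∃ (φ : R → Fin 7) (ψ : A → Fin 7), (∀ v w, H.Adj v w → φ v ≠ φ w) ∧
      Function.Injective ψ ∧ ∀ r a, a ∈ N r → φ r ≠ ψ a := by
  classical
  have hc1 : ((N x)ᶜ).card = 1 := by rw [Finset.card_compl, hA, hx]
  obtain ⟨a0, ha0⟩ := Finset.card_eq_one.1 hc1
  have ha0' : ∀ a, a ∉ N x ↔ a = a0 := by
    intro a
    rw [← Finset.mem_compl, ha0, Finset.mem_singleton]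
  have hxadj : ¬ H.Adj x x' := by
    intro h
    have := hadj x x' h
    rw [← hxx, Finset.inter_self, hx] at this
    omega
  -- vertices joined to `N x`
  have hout : ∀ r, r ≠ x → r ≠ x' → ∀ a ∈ N r, a = a0 := by
    intro r hr hr' a har
    rw [← ha0']
    intro hax
    exact no_three N h2 har hax (hxx ▸ hax) hr hr' hne
  set F : SimpleGraph R :=
    { Adj := fun p q => p ≠ q ∧ p ≠ x' ∧ q ≠ x' ∧
        (H.Adj p q ∨ (p = x ∧ (H.Adj x' q ∨ a0 ∈ N q)) ∨ (q = x ∧ (H.Adj x' p ∨ a0 ∈ N p)))
      symm := ⟨by
        rintro p q ⟨h1, h3, h4, h5⟩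
        refine ⟨h1.symm, h4, h3, ?_⟩
        rcases h5 with h | h | h
        · exact Or.inl h.symm
        · exact Or.inr (Or.inr h)
        · exact Or.inr (Or.inl h)⟩
      loopless := ⟨fun p h => h.1 rfl⟩ } with hF
  have hFadj : ∀ p q, F.Adj p q ↔ (p ≠ q ∧ p ≠ x' ∧ q ≠ x' ∧
        (H.Adj p q ∨ (p = x ∧ (H.Adj x' q ∨ a0 ∈ N q)) ∨
          (q = x ∧ (H.Adj x' p ∨ a0 ∈ N p)))) := fun p q => Iff.rfl
  have hdx : H.degree x ≤ 2 := by have := hd x; omega
  have hdx' : H.degree x' ≤ 2 := by have := hd x'; rw [← hxx] at this; omega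
  have dFx : F.degree x ≤ 6 := by
    rw [← SimpleGraph.card_neighborFinset_eq_degree]
    have h1 : F.neighborFinset x ⊆ H.neighborFinset x ∪ H.neighborFinset x' ∪
        Finset.univ.filter (fun r => a0 ∈ N r) := by
      intro q hq
      rw [SimpleGraph.mem_neighborFinset, hFadj] at hq
      simp only [Finset.mem_union, SimpleGraph.mem_neighborFinset, Finset.mem_filter,
        Finset.mem_univ, true_and]
      obtain ⟨h1, _, _, h5⟩ := hq
      rcases h5 with h | h | h
      · exact Or.inl (Or.inl h)
      · rcases h.2 with h | h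
        · exact Or.inl (Or.inr h)
        · exact Or.inr h
      · exact absurd h.1.symm h1
    have h3 := Finset.card_le_card h1
    have h4 := Finset.card_union_le (H.neighborFinset x ∪ H.neighborFinset x')
      (Finset.univ.filter (fun r => a0 ∈ N r))
    have h5 := Finset.card_union_le (H.neighborFinset x) (H.neighborFinset x')
    rw [SimpleGraph.card_neighborFinset_eq_degree, SimpleGraph.card_neighborFinset_eq_degree]
      at h5
    have h6 := h2 a0
    omega
  have dFx' : F.degree x' = 0 := by
    rw [← SimpleGraph.card_neighborFinset_eq_degree, Finset.card_eq_zero,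
      Finset.eq_empty_iff_forall_notMem]
    intro q hq
    rw [SimpleGraph.mem_neighborFinset, hFadj] at hq
    exact hq.2.1 rfl
  have dF : ∀ v, F.degree v ≤ 8 := by
    intro v
    by_cases hvx : v = x
    · rw [hvx]; omega
    by_cases hvx' : v = x'
    · rw [hvx']; omega
    have hdv := hd v
    rw [← SimpleGraph.card_neighborFinset_eq_degree]
    by_cases hA1 : H.Adj v x
    · have h1 : F.neighborFinset v ⊆ H.neighborFinset v := by
        intro q hq
        rw [SimpleGraph.mem_neighborFinset, hFadj] at hq
        rw [SimpleGraph.mem_neighborFinset]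
        rcases hq.2.2.2 with h | h | h
        · exact h
        · exact absurd h.1 hvx
        · rw [h.1]; exact hA1
      have h3 := Finset.card_le_card h1
      rw [SimpleGraph.card_neighborFinset_eq_degree H v] at h3
      omega
    · by_cases hA2 : H.Adj x' v
      · have h1 : F.neighborFinset v ⊆ insert x ((H.neighborFinset v).erase x') := by
          intro q hq
          rw [SimpleGraph.mem_neighborFinset, hFadj] at hq
          rw [Finset.mem_insert, Finset.mem_erase, SimpleGraph.mem_neighborFinset]
          rcases hq.2.2.2 with h | h | h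
          · exact Or.inr ⟨hq.2.2.1, h⟩
          · exact absurd h.1 hvx
          · exact Or.inl h.1
        have h3 := (Finset.card_le_card h1).trans (Finset.card_insert_le _ _)
        rw [Finset.card_erase_of_mem (by rw [SimpleGraph.mem_neighborFinset]; exact hA2.symm),
          SimpleGraph.card_neighborFinset_eq_degree H v] at h3
        have h4 : 0 < H.degree v := by
          rw [← SimpleGraph.card_neighborFinset_eq_degree]
          exact Finset.card_pos.2 ⟨x', by rw [SimpleGraph.mem_neighborFinset]; exact hA2.symm⟩
        omega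
      · by_cases hA3 : a0 ∈ N v
        · have h1 : F.neighborFinset v ⊆ insert x (H.neighborFinset v) := by
            intro q hq
            rw [SimpleGraph.mem_neighborFinset, hFadj] at hq
            rw [Finset.mem_insert, SimpleGraph.mem_neighborFinset]
            rcases hq.2.2.2 with h | h | h
            · exact Or.inr h
            · exact absurd h.1 hvx
            · exact Or.inl h.1
          have h3 := (Finset.card_le_card h1).trans (Finset.card_insert_le _ _)
          rw [SimpleGraph.card_neighborFinset_eq_degree H v] at h3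
          have h4 : 0 < (N v).card := Finset.card_pos.2 ⟨a0, hA3⟩
          omega
        · have h1 : F.neighborFinset v ⊆ H.neighborFinset v := by
            intro q hq
            rw [SimpleGraph.mem_neighborFinset, hFadj] at hq
            rw [SimpleGraph.mem_neighborFinset]
            rcases hq.2.2.2 with h | h | h
            · exact h
            · exact absurd h.1 hvx
            · rcases h.2 with h | h
              · exact absurd h hA2
              · exact absurd h hA3
          have h3 := Finset.card_le_card h1
          rw [SimpleGraph.card_neighborFinset_eq_degree H v] at h3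
          omega
  have hFK : F.CliqueFree 8 := by
    intro s hs
    have hxs : x ∉ s := by
      intro h
      have := clique_deg F hs h
      omega
    apply hK s
    refine ⟨?_, hs.2⟩
    intro p hp q hq hpq
    have h3 := hs.1 hp hq hpq
    rw [hFadj] at h3
    rcases h3.2.2.2 with h | h | h
    · exact h
    · exact absurd (h.1 ▸ hp) hxs
    · exact absurd (h.1 ▸ hq) hxs
  obtain ⟨φ, hφ⟩ := seven_col hR F dF hFK
  -- the colouring of `R`
  set φ' : R → Fin 7 := fun r => if r = x' then φ x else φ r with hφ'
  have hφ'x : φ' x = φ x := by simp [hφ']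
  have hφ'x' : φ' x' = φ x := by simp [hφ']
  have hφ'o : ∀ r, r ≠ x' → φ' r = φ r := by intro r hr; simp [hφ', hr]
  have hprop : ∀ v w, H.Adj v w → φ' v ≠ φ' w := by
    have haux : ∀ w, H.Adj x' w → φ x ≠ φ' w := by
      intro w hw
      have hwx' : w ≠ x' := hw.ne.symm
      have hwx : w ≠ x := by rintro rfl; exact hxadj hw.symm
      rw [hφ'o w hwx']
      apply hφ
      rw [hFadj]
      exact ⟨hwx.symm, hne, hwx', Or.inr (Or.inl ⟨rfl, Or.inl hw⟩)⟩
    intro v w hvw
    by_cases hv : v = x'
    · rw [hv, hφ'x']
      exact haux w (hv ▸ hvw)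
    · by_cases hw : w = x'
      · rw [hw, hφ'x']
        exact (haux v (hw ▸ hvw).symm).symm
      · rw [hφ'o v hv, hφ'o w hw]
        apply hφ
        rw [hFadj]
        exact ⟨hvw.ne, hv, hw, Or.inl hvw⟩
  have hNC1 : ∀ a, a ∈ NC N φ' (φ x) → a ∈ N x := by
    intro a ha
    obtain ⟨r, hr, har⟩ := (mem_NC N φ' _ a).1 ha
    by_cases hrx : r = x
    · rw [← hrx]; exact har
    by_cases hrx' : r = x'
    · rw [hxx, ← hrx']; exact har
    exfalso
    have haa := hout r hrx hrx' a har
    rw [hφ'o r hrx'] at hr
    subst haa
    have := hφ x r (by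
      rw [hFadj]
      exact ⟨Ne.symm hrx, hne, hrx', Or.inr (Or.inl ⟨rfl, Or.inr har⟩)⟩)
    exact this hr.symm
  have hNC2 : ∀ c, c ≠ φ x → ∀ a, a ∈ NC N φ' c → a = a0 := by
    intro c hc a ha
    obtain ⟨r, hr, har⟩ := (mem_NC N φ' _ a).1 ha
    by_cases hrx : r = x
    · rw [hrx, hφ'x] at hr; exact absurd hr.symm hc
    by_cases hrx' : r = x'
    · rw [hrx', hφ'x'] at hr; exact absurd hr.symm hc
    exact hout r hrx hrx' a har
  have hcard2 : ∀ c, c ≠ φ x → (NC N φ' c).card ≤ 1 := by
    intro c hc
    rw [Finset.card_le_one]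
    intro a ha b hb
    rw [hNC2 c hc a ha, hNC2 c hc b hb]
  obtain ⟨ψ, hψ, hψ'⟩ := exists_ext hA N h2 φ' (by
    intro c
    by_cases hc : c = φ x
    · rw [hc, ← hx]
      exact Finset.card_le_card (fun a ha => hNC1 a ha)
    · have := hcard2 c hc; omega) (by
    intro c c' hcc
    by_cases hc : c = φ x
    · have h3 : c' ≠ φ x := fun h => hcc (hc.trans h.symm)
      have := hcard2 c' h3
      have h4 := Finset.card_le_card (Finset.inter_subset_right (s₁ := NC N φ' c)
        (s₂ := NC N φ' c'))
      omega
    · have := hcard2 c hc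
      have h4 := Finset.card_le_card (Finset.inter_subset_left (s₁ := NC N φ' c)
        (s₂ := NC N φ' c'))
      omega)
  exact ⟨φ', ψ, hprop, hψ, hψ'⟩

theorem core (hR : Fintype.card R = 14) (hA : Fintype.card A = 7)
    (H : SimpleGraph R) [DecidableRel H.Adj] (N : R → Finset A)
    (h2 : ∀ a, (Finset.univ.filter (fun r => a ∈ N r)).card ≤ 2)
    (hd : ∀ r, H.degree r + (N r).card ≤ 8) (hK : H.CliqueFree 8)
    (h6 : ∀ r, (N r).card ≤ 6)
    (hadj : ∀ x y, H.Adj x y → (N x ∩ N y).card ≤ 5) :
    ∃ (φ : R → Fin 7) (ψ : A → Fin 7), (∀ v w, H.Adj v w → φ v ≠ φ w) ∧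
      Function.Injective ψ ∧ ∀ r a, a ∈ N r → φ r ≠ ψ a := by
  classical
  by_cases hT : ∃ x x', x ≠ x' ∧ (N x).card = 6 ∧ N x = N x'
  · obtain ⟨x, x', h1, h3, h4⟩ := hT
    exact twin_case hR hA H N h2 hd hK hadj x x' h1 h3 h4
  push Not at hT
  -- no twins
  set P : R → Finset R := fun x => Finset.univ.filter (fun y => y ≠ x ∧ N x ∪ N y = Finset.univ)
    with hP
  have memP : ∀ x y, y ∈ P x ↔ y ≠ x ∧ N x ∪ N y = Finset.univ := by
    intro x y; simp [hP]
  have hPsum : ∀ x y, y ∈ P x → 7 ≤ (N x).card + (N y).card := by
    intro x y hy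
    have h1 := ((memP x y).1 hy).2
    have h3 := Finset.card_union_le (N x) (N y)
    rw [h1, Finset.card_univ, hA] at h3
    exact h3
  have hPsymm : ∀ x y, y ∈ P x → x ∈ P y := by
    intro x y hy
    rw [memP] at hy ⊢
    exact ⟨hy.1.symm, by rw [Finset.union_comm]; exact hy.2⟩
  have hP2 : ∀ x, (P x).card ≤ 2 := by
    intro x
    obtain ⟨a, ha⟩ : ∃ a, a ∉ N x := by
      by_contra hcon
      push Not at hcon
      have : N x = Finset.univ := Finset.eq_univ_of_forall hcon
      have h3 := h6 x
      rw [this, Finset.card_univ, hA] at h3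
      omega
    refine le_trans (Finset.card_le_card ?_) (h2 a)
    intro y hy
    have h1 := ((memP x y).1 hy).2
    have h3 : a ∈ N x ∪ N y := by rw [h1]; exact Finset.mem_univ a
    rcases Finset.mem_union.1 h3 with h | h
    · exact absurd h ha
    · simp [h]
  have hPt : ∀ x, (P x).card ≤ (N x).card := by
    intro x
    have h3 := hP2 x
    by_cases hc : 2 ≤ (N x).card
    · omega
    by_cases hc0 : (N x).card = 0
    · rw [hc0]
      apply le_of_eq
      rw [Finset.card_eq_zero, Finset.eq_empty_iff_forall_notMem]
      intro y hy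
      have h1 := hPsum x y hy
      have h4 := h6 y
      omega
    · have hc1 : (N x).card = 1 := by omega
      rw [hc1, Finset.card_le_one]
      intro y hy z hz
      by_contra hyz
      have h7 : ((N x)ᶜ).card = 6 := by rw [Finset.card_compl, hA, hc1]
      have hfull : ∀ w, w ∈ P x → N w = (N x)ᶜ := by
        intro w hw
        symm
        apply Finset.eq_of_subset_of_card_le
        · intro a ha
          rw [Finset.mem_compl] at ha
          have h1 := ((memP x w).1 hw).2
          have h3 : a ∈ N x ∪ N w := by rw [h1]; exact Finset.mem_univ a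
          rcases Finset.mem_union.1 h3 with h | h
          · exact absurd h ha
          · exact h
        · have := h6 w; omega
      exact hT y z hyz (by rw [hfull y hy, h7]) (by rw [hfull y hy, hfull z hz])
  set F : SimpleGraph R :=
    { Adj := fun p q => p ≠ q ∧ (H.Adj p q ∨ N p ∪ N q = Finset.univ)
      symm := ⟨by
        rintro p q ⟨h1, h3⟩
        refine ⟨h1.symm, ?_⟩
        rcases h3 with h | h
        · exact Or.inl h.symm
        · exact Or.inr (by rw [Finset.union_comm]; exact h)⟩
      loopless := ⟨fun p h => h.1 rfl⟩ } with hF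
  have hFadj : ∀ p q, F.Adj p q ↔ (p ≠ q ∧ (H.Adj p q ∨ N p ∪ N q = Finset.univ)) :=
    fun p q => Iff.rfl
  have hHF : ∀ p q, H.Adj p q → F.Adj p q := fun p q h => ⟨h.ne, Or.inl h⟩
  have hFsub : ∀ v, F.neighborFinset v ⊆ H.neighborFinset v ∪ P v := by
    intro v w hw
    rw [SimpleGraph.mem_neighborFinset, hFadj] at hw
    rw [Finset.mem_union, SimpleGraph.mem_neighborFinset, memP]
    rcases hw.2 with h | h
    · exact Or.inl h
    · exact Or.inr ⟨hw.1.symm, h⟩
  have hFdeg : ∀ v, F.degree v ≤ H.degree v + (P v).card := by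
    intro v
    have h1 := (Finset.card_le_card (hFsub v)).trans (Finset.card_union_le _ _)
    rw [SimpleGraph.card_neighborFinset_eq_degree, SimpleGraph.card_neighborFinset_eq_degree]
      at h1
    exact h1
  have dF : ∀ v, F.degree v ≤ 8 := by
    intro v
    have h1 := hFdeg v
    have h3 := hPt v
    have h4 := hd v
    omega
  have hFK : F.CliqueFree 8 := by
    intro s hs
    apply hK s
    refine ⟨?_, hs.2⟩
    intro p hp q hq hpq
    have h3 := hs.1 hp hq hpq
    rw [hFadj] at h3
    rcases h3.2 with h | h
    · exact h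
    · exfalso
      have hqP : q ∈ P p := (memP p q).2 ⟨hpq.symm, h⟩
      have e1 := hPsum p q hqP
      have e2 := clique_deg F hs hp
      have e3 := clique_deg F hs hq
      have e4 := hFdeg p
      have e5 := hFdeg q
      have e6 := hP2 p
      have e7 := hP2 q
      have e8 := hd p
      have e9 := hd q
      omega
  rcases structure14 hR F dF hFK with ⟨σ, hσ⟩ | ⟨K1, hK1, hK1adj⟩ |
    ⟨u, I, T, hu, hI, hTc, huI, huT, hIT, hcov, hIadj, hTind⟩
  · -- perfect matching
    have hσ' : ∀ v, σ (σ v) = v ∧ v ≠ σ v := fun v => ⟨(hσ v).1, (hσ v).2.1⟩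
    obtain ⟨φ, hsurj, hφ⟩ := pairing_col hR σ hσ'
    have hprop : ∀ v w, H.Adj v w → φ v ≠ φ w := by
      intro v w hvw heq
      rcases (hφ v w).1 heq with h | h
      · exact hvw.ne h.symm
      · rw [h] at hvw
        exact (hσ v).2.2 (hHF _ _ hvw)
    have hNC : ∀ x, NC N φ (φ x) = N x ∪ N (σ x) := by
      intro x
      ext a
      rw [mem_NC, Finset.mem_union]
      constructor
      · rintro ⟨r, hr, har⟩
        rcases (hφ x r).1 hr.symm with h | h
        · rw [← h]; exact Or.inl har
        · rw [← h]; exact Or.inr har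
      · rintro (h | h)
        · exact ⟨x, rfl, h⟩
        · exact ⟨σ x, ((hφ x (σ x)).2 (Or.inr rfl)).symm, h⟩
    have C1 : ∀ c, (NC N φ c).card ≤ 6 := by
      intro c
      obtain ⟨x, rfl⟩ := hsurj c
      rw [hNC]
      by_contra hcon
      push Not at hcon
      have h3 : N x ∪ N (σ x) = Finset.univ := by
        apply Finset.eq_univ_of_card
        have := Finset.card_le_univ (N x ∪ N (σ x))
        omega
      exact (hσ x).2.2 ⟨(hσ x).2.1, Or.inr h3⟩
    by_cases C2 : ∀ c c', c ≠ c' → (NC N φ c ∩ NC N φ c').card ≤ 5
    · obtain ⟨ψ, hψ, hψ'⟩ := exists_ext hA N h2 φ C1 C2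
      exact ⟨φ, ψ, hprop, hψ, hψ'⟩
    · push Not at C2
      obtain ⟨c, c', hcc, hlt⟩ := C2
      have e1 : NC N φ c ∩ NC N φ c' = NC N φ c := by
        apply Finset.eq_of_subset_of_card_le Finset.inter_subset_left
        have := C1 c; omega
      have e2 : NC N φ c ∩ NC N φ c' = NC N φ c' := by
        apply Finset.eq_of_subset_of_card_le Finset.inter_subset_right
        have := C1 c'; omega
      have hS : (NC N φ c).card = 6 := by
        have := C1 c
        rw [e1] at hlt
        omega
      have e3 : NC N φ c' = NC N φ c := e2.symm.trans e1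
      obtain ⟨x, hx⟩ := hsurj c
      obtain ⟨x', hx'⟩ := hsurj c'
      have f1 : N x ∪ N (σ x) = NC N φ c := by rw [← hx, hNC]
      have f2 : N x' ∪ N (σ x') = NC N φ c := by rw [← e3, ← hx', hNC]
      have hxx : φ x ≠ φ x' := by rw [hx, hx']; exact hcc
      have hfin : ∃ φ' : R → Fin 7, (∀ v w, H.Adj v w → φ' v ≠ φ' w) ∧
          (∀ c, (NC N φ' c).card ≤ 6) ∧
          (∀ c c', c ≠ c' → (NC N φ' c ∩ NC N φ' c').card ≤ 5) := by
        by_cases g1 : (N x).Nonempty ∧ (N (σ x)).Nonempty
        · exact exchange hA H N h2 hd φ hsurj σ hσ' hφ hprop _ hS x x' hxx f1 f2 g1.1 g1.2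
        by_cases g2 : (N x').Nonempty ∧ (N (σ x')).Nonempty
        · exact exchange hA H N h2 hd φ hsurj σ hσ' hφ hprop _ hS x' x hxx.symm f2 f1 g2.1 g2.2
        exfalso
        have k1 : ∃ p, φ p = c ∧ N p = NC N φ c := by
          by_cases g3 : (N x).Nonempty
          · refine ⟨x, hx, ?_⟩
            have : N (σ x) = ∅ := by
              rw [← Finset.not_nonempty_iff_eq_empty]
              exact fun h => g1 ⟨g3, h⟩
            rw [this, Finset.union_empty] at f1
            exact f1
          · refine ⟨σ x, ?_, ?_⟩
            · rw [← hx]; exact ((hφ x (σ x)).2 (Or.inr rfl)).symm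
            · rw [Finset.not_nonempty_iff_eq_empty] at g3
              rw [g3, Finset.empty_union] at f1
              exact f1
        have k2 : ∃ p, φ p = c' ∧ N p = NC N φ c := by
          by_cases g3 : (N x').Nonempty
          · refine ⟨x', hx', ?_⟩
            have : N (σ x') = ∅ := by
              rw [← Finset.not_nonempty_iff_eq_empty]
              exact fun h => g2 ⟨g3, h⟩
            rw [this, Finset.union_empty] at f2
            exact f2
          · refine ⟨σ x', ?_, ?_⟩
            · rw [← hx']; exact ((hφ x' (σ x')).2 (Or.inr rfl)).symm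
            · rw [Finset.not_nonempty_iff_eq_empty] at g3
              rw [g3, Finset.empty_union] at f2
              exact f2
        obtain ⟨p, hp, hp'⟩ := k1
        obtain ⟨q, hq, hq'⟩ := k2
        refine hT p q ?_ (by rw [hp', hS]) (by rw [hp', hq'])
        rintro rfl
        exact hcc (hp.symm.trans hq)
      obtain ⟨φ', hp', C1', C2'⟩ := hfin
      obtain ⟨ψ, hψ, hψ'⟩ := exists_ext hA N h2 φ' C1' C2'
      exact ⟨φ', ψ, hp', hψ, hψ'⟩
  · -- two completely joined sets of size seven
    have hK2 : (K1ᶜ).card = 7 := by rw [Finset.card_compl, hR, hK1]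
    have hge7 : ∀ v, 7 ≤ F.degree v := by
      intro v
      rw [← SimpleGraph.card_neighborFinset_eq_degree]
      by_cases hv : v ∈ K1
      · rw [← hK2]
        apply Finset.card_le_card
        intro w hw
        rw [SimpleGraph.mem_neighborFinset]
        exact hK1adj v hv w (Finset.mem_compl.1 hw)
      · rw [← hK1]
        apply Finset.card_le_card
        intro w hw
        rw [SimpleGraph.mem_neighborFinset]
        exact (hK1adj w hw v hv).symm
    have hP0 : ∀ v, (P v).card = 0 := by
      intro v
      rw [Finset.card_eq_zero, Finset.eq_empty_iff_forall_notMem]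
      intro y hy
      have e1 := hPsum v y hy
      have e2 := hge7 v
      have e3 := hge7 y
      have e4 := hFdeg v
      have e5 := hFdeg y
      have e6 := hP2 v
      have e7 := hP2 y
      have e8 := hd v
      have e9 := hd y
      omega
    have ht1 : ∀ v, (N v).card ≤ 1 := by
      intro v
      have e1 := hge7 v
      have e2 := hFdeg v
      have e3 := hP0 v
      have e4 := hd v
      omega
    obtain ⟨φ, hφ, hc3⟩ := bip_col hR F dF K1 hK1 hK1adj
    have hNC3 : ∀ c, (NC N φ c).card ≤ 3 := by
      intro c
      have h1 : NC N φ c ⊆ (Finset.univ.filter (fun v => φ v = c)).biUnion N := by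
        intro a ha
        obtain ⟨r, hr, har⟩ := (mem_NC N φ c a).1 ha
        exact Finset.mem_biUnion.2 ⟨r, by simp [hr], har⟩
      refine (Finset.card_le_card h1).trans ?_
      refine (Finset.card_biUnion_le_card_mul _ _ 1 (fun r _ => ht1 r)).trans ?_
      have := hc3 c
      omega
    obtain ⟨ψ, hψ, hψ'⟩ := exists_ext hA N h2 φ (fun c => by have := hNC3 c; omega) (by
      intro c c' _
      have h1 := hNC3 c
      have h4 := Finset.card_le_card (Finset.inter_subset_left (s₁ := NC N φ c)
        (s₂ := NC N φ c'))
      omega)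
    exact ⟨φ, ψ, fun v w hvw => hφ v w (hHF v w hvw), hψ, hψ'⟩
  · -- six universal vertices outside `u`
    have hIdeg : ∀ i ∈ I, F.degree i = 8 := by
      intro i hi
      rw [← SimpleGraph.card_neighborFinset_eq_degree]
      have h1 : F.neighborFinset i = uᶜ.erase i := by
        ext v
        rw [SimpleGraph.mem_neighborFinset, Finset.mem_erase, Finset.mem_compl]
        constructor
        · intro h
          exact ⟨h.ne.symm, (hIadj i hi v h.ne.symm).1 h⟩
        · rintro ⟨h, h'⟩
          exact (hIadj i hi v h).2 h'
      rw [h1, Finset.card_erase_of_mem, Finset.card_compl, hR, hu]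
      exact Finset.mem_compl.2 (fun h => Finset.disjoint_left.1 huI h hi)
    have hTsub : ∀ p ∈ T, I ⊆ F.neighborFinset p := by
      intro p hp i hi
      rw [SimpleGraph.mem_neighborFinset]
      have hpi : p ≠ i := by
        rintro rfl
        exact Finset.disjoint_left.1 hIT hi hp
      exact ((hIadj i hi p hpi).2 (fun h => Finset.disjoint_left.1 huT h hp)).symm
    have hTdeg : ∀ p ∈ T, 6 ≤ F.degree p := by
      intro p hp
      rw [← SimpleGraph.card_neighborFinset_eq_degree, ← hI]
      exact Finset.card_le_card (hTsub p hp)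
    have hIP : ∀ i ∈ I, P i = ∅ := by
      intro i hi
      rw [Finset.eq_empty_iff_forall_notMem]
      intro y hy
      have hFiy : F.Adj i y := by
        rw [hFadj]
        rw [memP] at hy
        exact ⟨hy.1.symm, Or.inr hy.2⟩
      have hyu : y ∉ u := (hIadj i hi y hFiy.ne.symm).1 hFiy
      have hy6 : 6 ≤ F.degree y := by
        rcases hcov y with h | h | h
        · exact absurd h hyu
        · rw [hIdeg y h]; omega
        · exact hTdeg y h
      have e1 := hPsum i y hy
      have e2 := hIdeg i hi
      have e4 := hFdeg i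
      have e5 := hFdeg y
      have e6 := hP2 i
      have e7 := hP2 y
      have e8 := hd i
      have e9 := hd y
      omega
    have hIN : ∀ i ∈ I, N i = ∅ := by
      intro i hi
      have e2 := hIdeg i hi
      have e4 := hFdeg i
      rw [hIP i hi, Finset.card_empty] at e4
      have e8 := hd i
      rw [← Finset.card_eq_zero]
      omega
    have hIH : ∀ i ∈ I, ∀ v, F.Adj i v → H.Adj i v := by
      intro i hi v hv
      have h1 := hFsub i (by rw [SimpleGraph.mem_neighborFinset]; exact hv)
      rw [hIP i hi, Finset.union_empty, SimpleGraph.mem_neighborFinset] at h1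
      exact h1
    have hTH : ∀ p ∈ T, I ⊆ H.neighborFinset p := by
      intro p hp i hi
      have h1 := hTsub p hp hi
      rw [SimpleGraph.mem_neighborFinset] at h1 ⊢
      exact (hIH i hi p h1.symm).symm
    have hTt : ∀ p ∈ T, (N p).card ≤ 2 := by
      intro p hp
      have h1 := Finset.card_le_card (hTH p hp)
      rw [hI, SimpleGraph.card_neighborFinset_eq_degree] at h1
      have := hd p
      omega
    have hTt2 : ∀ p ∈ T, (N p).card = 2 → H.neighborFinset p = I := by
      intro p hp hp2
      symm
      apply Finset.eq_of_subset_of_card_le (hTH p hp)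
      rw [hI, SimpleGraph.card_neighborFinset_eq_degree]
      have := hd p
      omega
    obtain ⟨φ, hφ6, hφI, hφu⟩ := trip_col u I T hu hI hIT huT huI hcov
    have hprop : ∀ v w, H.Adj v w → φ v ≠ φ w := by
      intro v w hvw heq
      have hvwF := hHF v w hvw
      by_cases hvT : v ∈ T
      · have : w ∈ T := by
          rw [← hφ6, ← heq, hφ6]; exact hvT
        exact hTind v hvT w this hvwF
      · have hwT : w ∉ T := by
          rw [← hφ6, ← heq, hφ6]; exact hvT
        rcases hcov v with hv | hv | hv
        · rcases hcov w with hw | hw | hw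
          · exact hvw.ne (hφu v hv w hw heq)
          · exact (hIadj w hw v hvw.ne).1 hvwF.symm hv
          · exact hwT hw
        · rcases hcov w with hw | hw | hw
          · exact (hIadj v hv w hvw.ne.symm).1 hvwF hw
          · exact hvw.ne (hφI v hv w hw heq)
          · exact hwT hw
        · exact hvT hv
    -- the class of colour 6
    have hNC6 : NC N φ 6 = T.biUnion N := by
      ext a
      rw [mem_NC, Finset.mem_biUnion]
      constructor
      · rintro ⟨r, hr, har⟩; exact ⟨r, (hφ6 r).1 hr, har⟩
      · rintro ⟨r, hr, har⟩; exact ⟨r, (hφ6 r).2 hr, har⟩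
    have hNC6c : (NC N φ 6).card ≤ 6 := by
      rw [hNC6]
      have := Finset.card_biUnion_le_card_mul T N 2 hTt
      rw [hTc] at this
      exact this
    have hNCo : ∀ c, c ≠ 6 → NC N φ c = ∅ ∨ ∃ s ∈ u, φ s = c ∧ NC N φ c = N s := by
      intro c hc
      by_cases hs : ∃ s ∈ u, φ s = c
      · right
        obtain ⟨s, hs, hsc⟩ := hs
        refine ⟨s, hs, hsc, ?_⟩
        ext a
        rw [mem_NC]
        constructor
        · rintro ⟨r, hr, har⟩
          rcases hcov r with h | h | h
          · rw [hφu s hs r h (hsc.trans hr.symm)]; exact har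
          · rw [hIN r h] at har; exact absurd har (Finset.notMem_empty a)
          · exact absurd (hr.symm.trans ((hφ6 r).2 h)) hc
        · intro h; exact ⟨s, hsc, h⟩
      · left
        rw [Finset.eq_empty_iff_forall_notMem]
        intro a ha
        obtain ⟨r, hr, har⟩ := (mem_NC N φ c a).1 ha
        rcases hcov r with h | h | h
        · exact hs ⟨r, h, hr⟩
        · rw [hIN r h] at har; exact absurd har (Finset.notMem_empty a)
        · exact absurd (hr.symm.trans ((hφ6 r).2 h)) hc
    have C1 : ∀ c, (NC N φ c).card ≤ 6 := by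
      intro c
      by_cases hc : c = 6
      · rw [hc]; exact hNC6c
      · rcases hNCo c hc with h | ⟨s, _, _, h⟩
        · rw [h]; simp
        · rw [h]; exact h6 s
    by_cases hbad : ∃ s ∈ u, N s = NC N φ 6 ∧ (N s).card = 6
    · -- recolour `s`
      obtain ⟨s, hs, hsN, hs6⟩ := hbad
      have hTcard2 : ∀ p ∈ T, (N p).card = 2 := by
        intro p hp
        have h1 := hTt p hp
        have h3 : 6 ≤ ∑ q ∈ T, (N q).card := by
          have e1 : (T.biUnion N).card ≤ ∑ q ∈ T, (N q).card := Finset.card_biUnion_le
          rw [← hNC6, ← hsN, hs6] at e1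
          exact e1
        have h4 := Finset.add_sum_erase T (fun q => (N q).card) hp
        have h5 : ∑ q ∈ T.erase p, (N q).card ≤ 4 := by
          calc ∑ q ∈ T.erase p, (N q).card ≤ ∑ q ∈ T.erase p, 2 :=
                Finset.sum_le_sum (fun q hq => hTt q (Finset.mem_of_mem_erase hq))
            _ = 4 := by
                rw [Finset.sum_const, Finset.card_erase_of_mem hp, hTc]; rfl
        omega
      have hsT : ∀ p ∈ T, ¬ H.Adj s p := by
        intro p hp hadj'
        have h1 := hTt2 p hp (hTcard2 p hp)
        have h3 : s ∈ H.neighborFinset p := by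
          rw [SimpleGraph.mem_neighborFinset]; exact hadj'.symm
        rw [h1] at h3
        exact Finset.disjoint_left.1 huI hs h3
      have hsT' : s ∉ T := fun h => Finset.disjoint_left.1 huT hs h
      set φ' : R → Fin 7 := fun r => if r = s then 6 else φ r with hφ'
      have hφ's : φ' s = 6 := by simp [hφ']
      have hφ'o : ∀ r, r ≠ s → φ' r = φ r := by intro r hr; simp [hφ', hr]
      have hprop' : ∀ v w, H.Adj v w → φ' v ≠ φ' w := by
        intro v w hvw heq
        by_cases hv : v = s
        · have hws : w ≠ s := fun h => hvw.ne (hv.trans h.symm)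
          rw [hv, hφ's, hφ'o w hws] at heq
          exact hsT w ((hφ6 w).1 heq.symm) (hv ▸ hvw)
        · by_cases hw : w = s
          · rw [hw, hφ's, hφ'o v hv] at heq
            exact hsT v ((hφ6 v).1 heq) (hw ▸ hvw).symm
          · rw [hφ'o v hv, hφ'o w hw] at heq
            exact hprop v w hvw heq
      have hNC6' : NC N φ' 6 ⊆ N s := by
        intro a ha
        obtain ⟨r, hr, har⟩ := (mem_NC N φ' 6 a).1 ha
        by_cases hrs : r = s
        · rw [← hrs]; exact har
        · rw [hφ'o r hrs] at hr
          rw [hsN, mem_NC]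
          exact ⟨r, hr, har⟩
      have hNCo' : ∀ c, c ≠ 6 → (NC N φ' c).card ≤ 1 := by
        intro c hc
        have h1 : NC N φ' c ⊆ (N s)ᶜ := by
          intro a ha
          rw [Finset.mem_compl]
          intro has
          obtain ⟨r, hr, har⟩ := (mem_NC N φ' c a).1 ha
          have hrs : r ≠ s := by
            rintro rfl
            exact hc (hr.symm.trans hφ's)
          have has' := has
          rw [hsN, hNC6, Finset.mem_biUnion] at has'
          obtain ⟨p, hp, hap⟩ := has'
          have hps : p ≠ s := by rintro rfl; exact hsT' hp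
          have hrp : r ≠ p := by
            rintro rfl
            rw [hφ'o r hrs, (hφ6 r).2 hp] at hr
            exact hc hr.symm
          exact no_three N h2 har has hap hrs hrp hps.symm
        refine (Finset.card_le_card h1).trans ?_
        rw [Finset.card_compl, hA, hs6]
      obtain ⟨ψ, hψ, hψ'⟩ := exists_ext hA N h2 φ' (by
        intro c
        by_cases hc : c = 6
        · rw [hc]
          exact (Finset.card_le_card hNC6').trans (le_of_eq hs6)
        · have := hNCo' c hc; omega) (by
        intro c c' hcc
        by_cases hc : c = 6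
        · have h3 : c' ≠ 6 := fun h => hcc (hc.trans h.symm)
          have := hNCo' c' h3
          have h4 := Finset.card_le_card (Finset.inter_subset_right (s₁ := NC N φ' c)
            (s₂ := NC N φ' c'))
          omega
        · have := hNCo' c hc
          have h4 := Finset.card_le_card (Finset.inter_subset_left (s₁ := NC N φ' c)
            (s₂ := NC N φ' c'))
          omega)
      exact ⟨φ', ψ, hprop', hψ, hψ'⟩
    · push Not at hbad
      have C2 : ∀ c c', c ≠ c' → (NC N φ c ∩ NC N φ c').card ≤ 5 := by
        intro c c' hcc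
        by_contra hcon
        push Not at hcon
        have e1 : NC N φ c ∩ NC N φ c' = NC N φ c := by
          apply Finset.eq_of_subset_of_card_le Finset.inter_subset_left
          have := C1 c; omega
        have e2 : NC N φ c ∩ NC N φ c' = NC N φ c' := by
          apply Finset.eq_of_subset_of_card_le Finset.inter_subset_right
          have := C1 c'; omega
        have hS : (NC N φ c).card = 6 := by
          have := C1 c
          rw [e1] at hcon
          omega
        have e3 : NC N φ c = NC N φ c' := e1.symm.trans e2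
        have hne : NC N φ c ≠ ∅ := by
          intro h; rw [h] at hS; simp at hS
        by_cases hc : c = 6
        · have hc' : c' ≠ 6 := fun h => hcc (hc.trans h.symm)
          rcases hNCo c' hc' with h | ⟨s, hs, _, h⟩
          · exact hne (e3.trans h)
          · apply hbad s hs
            · rw [← h, ← e3, hc]
            · rw [← h, ← e3, hS]
        · by_cases hc' : c' = 6
          · rcases hNCo c hc with h | ⟨s, hs, _, h⟩
            · exact hne h
            · apply hbad s hs
              · rw [← h, e3, hc']
              · rw [← h, hS]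
          · rcases hNCo c hc with h | ⟨s, hs, hsc, h⟩
            · exact hne h
            · rcases hNCo c' hc' with h' | ⟨s', hs', hsc', h'⟩
              · exact hne (e3.trans h')
              · refine hT s s' ?_ (by rw [← h, hS]) (by rw [← h, ← h', e3])
                rintro rfl
                exact hcc (hsc.symm.trans hsc')
      obtain ⟨ψ, hψ, hψ'⟩ := exists_ext hA N h2 φ C1 C2
      exact ⟨φ, ψ, hprop, hψ, hψ'⟩

end Pool.Agent.helper88.BK
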