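import Mathlib

/-!
Extending a 7-colouring of `R` to a 7-clique `A`, each vertex of which has at most two
neighbours in `R`.
-/

namespace Pool.Agent.helper88.BK

open Finset

variable {R A : Type} [Fintype R] [DecidableEq R] [Fintype A] [DecidableEq A]

/-- the elements of `A` joined to the colour class `c` -/
def NC (N : R → Finset A) (φ : R → Fin 7) (c : Fin 7) : Finset A :=
  Finset.univ.filter (fun a => ∃ r, φ r = c ∧ a ∈ N r)

omit [DecidableEq R] in
theorem mem_NC (N : R → Finset A) (φ : R → Fin 7) (c : Fin 7) (a : A) :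
    a ∈ NC N φ c ↔ ∃ r, φ r = c ∧ a ∈ N r := by
  simp [NC]

omit [DecidableEq R] in
theorem exists_ext (hA : Fintype.card A = 7) (N : R → Finset A)
    (h2 : ∀ a, (Finset.univ.filter (fun r => a ∈ N r)).card ≤ 2)
    (φ : R → Fin 7)
    (C1 : ∀ c, (NC N φ c).card ≤ 6)
    (C2 : ∀ c c', c ≠ c' → (NC N φ c ∩ NC N φ c').card ≤ 5) :
    ∃ ψ : A → Fin 7, Function.Injective ψ ∧ ∀ r a, a ∈ N r → φ r ≠ ψ a := by
  classical
  set L : A → Finset (Fin 7) := fun a => Finset.univ.filter (fun c => a ∉ NC N φ c) with hL
  have hLc : ∀ a, 5 ≤ (L a).card := by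
    intro a
    have h1 : (L a)ᶜ ⊆ (Finset.univ.filter (fun r => a ∈ N r)).image φ := by
      intro c hc
      simp only [hL, Finset.mem_compl, Finset.mem_filter, Finset.mem_univ, true_and,
        not_not] at hc
      obtain ⟨r, hr, har⟩ := (mem_NC N φ c a).1 hc
      exact Finset.mem_image.2 ⟨r, by simpa using har, hr⟩
    have h3 := (Finset.card_le_card h1).trans (Finset.card_image_le.trans (h2 a))
    rw [Finset.card_compl, Fintype.card_fin] at h3
    omega
  have hall : ∀ s : Finset A, s.card ≤ (s.biUnion L).card := by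
    intro s
    by_contra hcon
    push Not at hcon
    have hs7 : s.card ≤ 7 := by rw [← hA]; exact Finset.card_le_univ s
    have hne : s.Nonempty := by
      rw [← Finset.card_pos]; omega
    obtain ⟨a0, ha0⟩ := hne
    have h5 : 5 ≤ (s.biUnion L).card :=
      (hLc a0).trans (Finset.card_le_card (Finset.subset_biUnion_of_mem L ha0))
    -- colours missing from all lists
    set Mi : Finset (Fin 7) := (s.biUnion L)ᶜ with hMi
    have hMic : Mi.card = 7 - (s.biUnion L).card := by
      rw [hMi, Finset.card_compl, Fintype.card_fin]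
    have hMin : ∀ c ∈ Mi, s ⊆ NC N φ c := by
      intro c hc a ha
      rw [hMi, Finset.mem_compl, Finset.mem_biUnion] at hc
      by_contra hn
      exact hc ⟨a, ha, by simp [hL, hn]⟩
    have hs6 : s.card = 6 ∨ s.card = 7 := by omega
    rcases hs6 with hs6 | hs6
    · have hM2 : 1 < Mi.card := by omega
      obtain ⟨c, hc, c', hc', hcc⟩ := Finset.one_lt_card.1 hM2
      have h1 := C2 c c' hcc
      have h3 : s ⊆ NC N φ c ∩ NC N φ c' := Finset.subset_inter (hMin c hc) (hMin c' hc')
      have := Finset.card_le_card h3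
      omega
    · have hM1 : 0 < Mi.card := by omega
      obtain ⟨c, hc⟩ := Finset.card_pos.1 hM1
      have h1 := C1 c
      have := Finset.card_le_card (hMin c hc)
      omega
  obtain ⟨ψ, hψ, hψL⟩ := (Finset.all_card_le_biUnion_card_iff_exists_injective L).1 hall
  refine ⟨ψ, hψ, ?_⟩
  intro r a har heq
  have h1 := hψL a
  simp only [hL, Finset.mem_filter, Finset.mem_univ, true_and] at h1
  exact h1 ((mem_NC N φ _ a).2 ⟨r, heq, har⟩)

end Pool.Agent.helper88.BK
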