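import Pool.Agent.helper88.BK.Core

/-!
Every graph on at most 21 vertices with maximum degree at most 8, clique number exactly 7,
is 7-colourable.
-/

namespace Pool.Agent.helper88.BK

open Finset

variable {V : Type} [Fintype V] [DecidableEq V]

theorem colorable7 (hV : Fintype.card V ≤ 21) (G : SimpleGraph V) [DecidableRel G.Adj]
    (hΔ : ∀ v, G.degree v ≤ 8) (s : Finset V) (hs : G.IsNClique 7 s) (hK : G.CliqueFree 8) :
    G.Colorable 7 := by
  classical
  have hcs : Fintype.card {v // v ∉ s} = Fintype.card V - 7 := by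
    rw [Fintype.card_subtype_compl, Fintype.card_coe, hs.2]
  have hge : 7 ≤ Fintype.card V := by rw [← hs.2]; exact Finset.card_le_univ s
  have hcA : Fintype.card {v // v ∈ s} = 7 := by rw [Fintype.card_coe, hs.2]
  let R := {v // v ∉ s} ⊕ Fin (14 - (Fintype.card V - 7))
  have hR : Fintype.card R = 14 := by
    show Fintype.card ({v // v ∉ s} ⊕ Fin (14 - (Fintype.card V - 7))) = 14
    rw [Fintype.card_sum, hcs, Fintype.card_fin]
    omega
  let H : SimpleGraph R :=
    { Adj := fun p q => ∃ v w : {v // v ∉ s}, p = Sum.inl v ∧ q = Sum.inl w ∧ G.Adj v.1 w.1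
      symm := ⟨by
        rintro p q ⟨v, w, h1, h2, h3⟩
        exact ⟨w, v, h2, h1, h3.symm⟩⟩
      loopless := ⟨by
        rintro p ⟨v, w, h1, h2, h3⟩
        rw [h1] at h2
        have := Sum.inl.inj h2
        rw [this] at h3
        exact h3.ne rfl⟩ }
  haveI : DecidableRel H.Adj := Classical.decRel _
  have hH : ∀ p q, H.Adj p q ↔
      ∃ v w : {v // v ∉ s}, p = Sum.inl v ∧ q = Sum.inl w ∧ G.Adj v.1 w.1 := fun _ _ => Iff.rfl
  have hHl : ∀ v w : {v // v ∉ s}, H.Adj (Sum.inl v) (Sum.inl w) ↔ G.Adj v.1 w.1 := by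
    intro v w
    rw [hH]
    constructor
    · rintro ⟨v', w', h1, h2, h3⟩
      rw [Sum.inl.inj h1, Sum.inl.inj h2]; exact h3
    · intro h; exact ⟨v, w, rfl, rfl, h⟩
  let N : R → Finset {v // v ∈ s} := fun p =>
    Finset.univ.filter (fun a => ∃ v : {v // v ∉ s}, p = Sum.inl v ∧ G.Adj v.1 a.1)
  have hN : ∀ p a, a ∈ N p ↔ ∃ v : {v // v ∉ s}, p = Sum.inl v ∧ G.Adj v.1 a.1 := by
    intro p a; simp [N]
  have hNl : ∀ (v : {v // v ∉ s}) a, a ∈ N (Sum.inl v) ↔ G.Adj v.1 a.1 := by
    intro v a
    rw [hN]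
    constructor
    · rintro ⟨v', h1, h2⟩; rw [Sum.inl.inj h1]; exact h2
    · intro h; exact ⟨v, rfl, h⟩
  -- few neighbours outside
  have h2 : ∀ a, (Finset.univ.filter (fun r => a ∈ N r)).card ≤ 2 := by
    intro a
    have h1 : (Finset.univ.filter (fun r => a ∈ N r)).card
        ≤ ((G.neighborFinset a.1).filter (fun v => v ∉ s)).card := by
      apply Finset.card_le_card_of_injOn
        (fun r : R => Sum.elim (fun v => v.1) (fun _ => a.1) r)
      · intro r hr
        simp only [Finset.coe_filter, Finset.mem_univ, true_and, Set.mem_ofPred_eq] at hr ⊢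
        obtain ⟨v, rfl, hv⟩ := (hN r a).1 hr
        exact ⟨by rw [SimpleGraph.mem_neighborFinset]; exact hv.symm, v.2⟩
      · intro r hr r' hr' hrr
        simp only [Finset.coe_filter, Finset.mem_univ, true_and, Set.mem_ofPred_eq] at hr hr'
        obtain ⟨v, rfl, hv⟩ := (hN r a).1 hr
        obtain ⟨w, rfl, hw⟩ := (hN r' a).1 hr'
        simp only [Sum.elim_inl] at hrr
        rw [Subtype.ext hrr]
    have h3 : s.erase a.1 ⊆ (G.neighborFinset a.1).filter (fun v => ¬ (v ∉ s)) := by
      intro w hw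
      rw [Finset.mem_erase] at hw
      rw [Finset.mem_filter, SimpleGraph.mem_neighborFinset]
      exact ⟨hs.1 a.2 hw.2 hw.1.symm, by simpa using hw.2⟩
    have h4 := Finset.card_le_card h3
    rw [Finset.card_erase_of_mem a.2, hs.2] at h4
    have h5 := Finset.card_filter_add_card_filter_not (s := G.neighborFinset a.1)
      (fun v => v ∉ s)
    rw [SimpleGraph.card_neighborFinset_eq_degree] at h5
    have h6 := hΔ a.1
    omega
  have hd : ∀ r, H.degree r + (N r).card ≤ 8 := by
    intro r
    rcases r with v | k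
    · have h1 : H.degree (Sum.inl v) ≤ ((G.neighborFinset v.1).filter (fun v => v ∉ s)).card := by
        rw [← SimpleGraph.card_neighborFinset_eq_degree]
        apply Finset.card_le_card_of_injOn
          (fun r : R => Sum.elim (fun v => v.1) (fun _ => v.1) r)
        · intro r hr
          simp only [Finset.mem_coe, SimpleGraph.mem_neighborFinset] at hr
          obtain ⟨v', w, h1, rfl, h3⟩ := hr
          rw [← Sum.inl.inj h1] at h3
          simp only [Finset.coe_filter, Set.mem_ofPred_eq]
          exact ⟨by rw [SimpleGraph.mem_neighborFinset]; exact h3, w.2⟩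
        · intro r hr r' hr' hrr
          simp only [Finset.mem_coe, SimpleGraph.mem_neighborFinset] at hr hr'
          obtain ⟨_, w, _, rfl, _⟩ := hr
          obtain ⟨_, w', _, rfl, _⟩ := hr'
          simp only [Sum.elim_inl] at hrr
          rw [Subtype.ext hrr]
      have h3 : (N (Sum.inl v)).card ≤
          ((G.neighborFinset v.1).filter (fun v => ¬ (v ∉ s))).card := by
        apply Finset.card_le_card_of_injOn (fun a => a.1)
        · intro a ha
          rw [Finset.mem_coe, hNl] at ha
          simp only [Finset.coe_filter, Set.mem_ofPred_eq]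
          exact ⟨by rw [SimpleGraph.mem_neighborFinset]; exact ha, by simp⟩
        · intro a _ b _ hab
          exact Subtype.ext hab
      have h5 := Finset.card_filter_add_card_filter_not (s := G.neighborFinset v.1)
        (fun v => v ∉ s)
      rw [SimpleGraph.card_neighborFinset_eq_degree] at h5
      have h6 := hΔ v.1
      omega
    · have h1 : H.degree (Sum.inr k) = 0 := by
        rw [← SimpleGraph.card_neighborFinset_eq_degree, Finset.card_eq_zero,
          Finset.eq_empty_iff_forall_notMem]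
        intro q hq
        rw [SimpleGraph.mem_neighborFinset, hH] at hq
        obtain ⟨_, _, h, _, _⟩ := hq
        exact absurd h (by simp)
      have h3 : N (Sum.inr k) = ∅ := by
        rw [Finset.eq_empty_iff_forall_notMem]
        intro a ha
        obtain ⟨_, h, _⟩ := (hN _ a).1 ha
        exact absurd h (by simp)
      rw [h1, h3]
      simp
  have hHK : H.CliqueFree 8 := by
    intro t ht
    have hin : ∀ p ∈ t, ∃ v : {v // v ∉ s}, p = Sum.inl v := by
      intro p hp
      obtain ⟨q, hq, hpq⟩ : ∃ q ∈ t, q ≠ p := by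
        apply Finset.exists_mem_ne
        rw [ht.2]; norm_num
      obtain ⟨_, w, _, h2, _⟩ := ht.1 hq hp hpq
      exact ⟨w, h2⟩
    obtain ⟨p0, hp0⟩ : t.Nonempty := by
      rw [← Finset.card_pos, ht.2]; norm_num
    obtain ⟨v0, _⟩ := hin p0 hp0
    let f : R → V := fun r => Sum.elim (fun v => v.1) (fun _ => v0.1) r
    apply hK (t.image f)
    constructor
    · intro a ha b hb hab
      simp only [Finset.coe_image, Set.mem_image, Finset.mem_coe] at ha hb
      obtain ⟨p, hp, rfl⟩ := ha
      obtain ⟨q, hq, rfl⟩ := hb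
      have hpq : p ≠ q := by rintro rfl; exact hab rfl
      obtain ⟨v, w, rfl, rfl, h⟩ := ht.1 hp hq hpq
      exact h
    · rw [Finset.card_image_of_injOn, ht.2]
      intro p hp q hq hpq
      obtain ⟨v, rfl⟩ := hin p hp
      obtain ⟨w, rfl⟩ := hin q hq
      have : v.1 = w.1 := hpq
      rw [Subtype.ext this]
  have h6 : ∀ r, (N r).card ≤ 6 := by
    intro r
    by_contra hcon
    push Not at hcon
    have hfull : N r = Finset.univ := by
      apply Finset.eq_univ_of_card
      have := Finset.card_le_univ (N r)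
      omega
    obtain ⟨a0, ha0⟩ : s.Nonempty := by
      rw [← Finset.card_pos, hs.2]; norm_num
    have h1 : (⟨a0, ha0⟩ : {v // v ∈ s}) ∈ N r := by rw [hfull]; exact Finset.mem_univ _
    obtain ⟨v, rfl, _⟩ := (hN r _).1 h1
    refine hK _ (hs.insert (a := v.1) ?_)
    intro b hb
    have h3 : (⟨b, hb⟩ : {v // v ∈ s}) ∈ N (Sum.inl v) := by rw [hfull]; exact Finset.mem_univ _
    exact (hNl v _).1 h3
  have hadj : ∀ x y, H.Adj x y → (N x ∩ N y).card ≤ 5 := by
    intro x y hxy
    by_contra hcon
    push Not at hcon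
    obtain ⟨v, w, rfl, rfl, hvw⟩ := hxy
    set C : Finset V := (N (Sum.inl v) ∩ N (Sum.inl w)).map
      ⟨Subtype.val, Subtype.val_injective⟩ with hC
    have hCmem : ∀ b ∈ C, b ∈ s ∧ G.Adj v.1 b ∧ G.Adj w.1 b := by
      intro b hb
      simp only [hC, Finset.mem_map, Finset.mem_inter, Function.Embedding.coeFn_mk] at hb
      obtain ⟨a, ⟨h1, h2⟩, rfl⟩ := hb
      exact ⟨a.2, (hNl v a).1 h1, (hNl w a).1 h2⟩
    have hCc : 6 ≤ C.card := by rw [hC, Finset.card_map]; omega
    have hCcl : G.IsNClique C.card C := by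
      refine ⟨?_, rfl⟩
      intro a ha b hb hab
      exact hs.1 (hCmem a ha).1 (hCmem b hb).1 hab
    have hC1 : G.IsNClique (C.card + 1) (insert w.1 C) :=
      hCcl.insert (fun b hb => (hCmem b hb).2.2)
    have hC2 : G.IsNClique (C.card + 1 + 1) (insert v.1 (insert w.1 C)) := by
      apply hC1.insert
      intro b hb
      rcases Finset.mem_insert.1 hb with rfl | hb
      · exact hvw
      · exact (hCmem b hb).2.1
    exact hK.mono (show 8 ≤ C.card + 1 + 1 by omega) _ hC2
  obtain ⟨φ, ψ, hφ, hψ, hψN⟩ := core hR hcA H N h2 hd hHK h6 hadj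
  refine ⟨SimpleGraph.Coloring.mk
    (fun v => if h : v ∈ s then ψ ⟨v, h⟩ else φ (Sum.inl ⟨v, h⟩)) ?_⟩
  intro v w hvw
  by_cases hv : v ∈ s <;> by_cases hw : w ∈ s
  · simp only [hv, hw, dif_pos]
    intro h
    have := hψ h
    exact hvw.ne (congrArg Subtype.val this)
  · simp only [hv, hw, dif_pos, dif_neg, not_false_eq_true]
    exact (hψN (Sum.inl ⟨w, hw⟩) ⟨v, hv⟩ ((hNl _ _).2 hvw.symm)).symm
  · simp only [hv, hw, dif_pos, dif_neg, not_false_eq_true]
    exact hψN (Sum.inl ⟨v, hv⟩) ⟨w, hw⟩ ((hNl _ _).2 hvw)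
  · simp only [hv, hw, dif_neg, not_false_eq_true]
    exact hφ _ _ ((hHl _ _).2 hvw)

end Pool.Agent.helper88.BK
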