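import Mathlib

/-!
Structure of graphs on 14 vertices with maximum degree at most 8 and no `K_8`, by Tutte's
theorem applied to the complement.
-/

namespace Pool.Agent.helper88.BK

open Finset

variable {V : Type} [Fintype V] [DecidableEq V]

/-- Tutte's theorem in combinatorial form: a perfect matching (as an involution), or a set `u`
whose deletion leaves more than `|u|` odd blocks (no edges between different blocks). -/
theorem tutte_or (B : SimpleGraph V) :
    (∃ σ : V → V, ∀ v, σ (σ v) = v ∧ B.Adj v (σ v)) ∨
    ∃ (u : Finset V) (K : Type) (_ : Fintype K) (_ : DecidableEq K) (comp : {v // v ∉ u} → K),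
      Function.Surjective comp ∧
      (∀ v w : {v // v ∉ u}, B.Adj v.1 w.1 → comp v = comp w) ∧
      u.card < (Finset.univ.filter
        (fun k : K => Odd (Finset.univ.filter (fun v => comp v = k)).card)).card := by
  classical
  by_cases h : ∃ M : B.Subgraph, M.IsPerfectMatching
  · left
    obtain ⟨M, hM⟩ := h
    rw [SimpleGraph.Subgraph.isPerfectMatching_iff] at hM
    choose σ hσ huniq using hM
    refine ⟨σ, fun v => ⟨?_, (hσ v).adj_sub⟩⟩
    exact (huniq (σ v) v (hσ v).symm).symm
  · right
    rw [SimpleGraph.tutte] at h
    push Not at h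
    obtain ⟨u, hu⟩ := h
    set B' := ((⊤ : B.Subgraph).deleteVerts u).coe with hB'
    have hmem : ∀ v : {v // v ∉ u.toFinset}, v.1 ∈ ((⊤ : B.Subgraph).deleteVerts u).verts := by
      intro v
      have := v.2
      simpa using this
    have hout : ∀ x, x ∈ ((⊤ : B.Subgraph).deleteVerts u).verts → x ∉ u.toFinset := by
      intro x h
      rw [SimpleGraph.Subgraph.deleteVerts_verts] at h
      intro h'
      exact h.2 (Set.mem_toFinset.1 h')
    refine ⟨u.toFinset, B'.ConnectedComponent, inferInstance, Classical.decEq _,
      fun v => B'.connectedComponentMk ⟨v.1, hmem v⟩, ?_, ?_, ?_⟩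
    · intro c
      obtain ⟨w, rfl⟩ := c.exists_rep
      exact ⟨⟨w.1, hout _ w.2⟩, rfl⟩
    · intro v w hvw
      apply SimpleGraph.ConnectedComponent.sound
      apply SimpleGraph.Adj.reachable
      simp only [hB', SimpleGraph.Subgraph.coe_adj, SimpleGraph.Subgraph.deleteVerts_adj,
        SimpleGraph.Subgraph.top_adj, SimpleGraph.Subgraph.verts_top, Set.mem_univ, true_and]
      refine ⟨by simpa using v.2, by simpa using w.2, hvw⟩
    · unfold SimpleGraph.IsTutteViolator at hu
      rw [Set.ncard_eq_toFinset_card' u] at hu
      refine lt_of_lt_of_le hu (le_of_eq ?_)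
      rw [Set.ncard_eq_toFinset_card']
      congr 1
      ext c
      simp only [Set.mem_toFinset, Finset.mem_filter, Finset.mem_univ, true_and]
      have : c.supp.ncard = (Finset.univ.filter (fun v : {v // v ∉ u.toFinset} =>
          B'.connectedComponentMk ⟨v.1, hmem v⟩ = c)).card := by
        rw [Set.ncard_eq_toFinset_card']
        symm
        apply Finset.card_bij (fun v _ => ⟨v.1, hmem v⟩)
        · intro a ha
          simpa using ha
        · intro a _ b _ hab
          simpa [Subtype.ext_iff] using hab
        · intro b hb
          exact ⟨⟨b.1, hout _ b.2⟩, by simpa using hb, rfl⟩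
      show Odd _ ↔ _
      rw [this]

omit [Fintype V] in
/-- Representatives of blocks form a clique in the complement. -/
theorem clique_of_blocks (F : SimpleGraph V) (hK : F.CliqueFree 8)
    (u : Finset V) (K : Type) [Fintype K] [DecidableEq K] (comp : {v // v ∉ u} → K)
    (hs : Function.Surjective comp)
    (hc : ∀ v w : {v // v ∉ u}, Fᶜ.Adj v.1 w.1 → comp v = comp w) :
    Fintype.card K ≤ 7 := by
  classical
  by_contra hcon
  push Not at hcon
  obtain ⟨r, hr⟩ := hs.hasRightInverse
  have hinj : Function.Injective (fun k => (r k).1) := by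
    intro a b hab
    have : r a = r b := Subtype.ext hab
    rw [← hr a, ← hr b, this]
  have hcl : F.IsClique ((Finset.univ.image (fun k => (r k).1) : Finset V) : Set V) := by
    intro a ha b hb hab
    simp only [Finset.coe_image, Finset.coe_univ, Set.image_univ, Set.mem_range] at ha hb
    obtain ⟨k, rfl⟩ := ha
    obtain ⟨l, rfl⟩ := hb
    by_contra hn
    have := hc (r k) (r l) (by rw [SimpleGraph.compl_adj]; exact ⟨hab, hn⟩)
    rw [hr, hr] at this
    exact hab (by rw [this])
  have hcard : (Finset.univ.image (fun k => (r k).1) : Finset V).card = Fintype.card K := by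
    rw [Finset.card_image_of_injective _ hinj, Finset.card_univ]
  have hfree := hK.mono (show 8 ≤ Fintype.card K by omega)
  exact hfree _ ⟨hcl, hcard⟩

/-- The structure lemma. -/
theorem structure14 (hV : Fintype.card V = 14) (F : SimpleGraph V) [DecidableRel F.Adj]
    (hd : ∀ v, F.degree v ≤ 8) (hK : F.CliqueFree 8) :
    (∃ σ : V → V, ∀ v, σ (σ v) = v ∧ v ≠ σ v ∧ ¬ F.Adj v (σ v)) ∨
    (∃ K1 : Finset V, K1.card = 7 ∧ ∀ x ∈ K1, ∀ y, y ∉ K1 → F.Adj x y) ∨
    (∃ u I T : Finset V, u.card = 5 ∧ I.card = 6 ∧ T.card = 3 ∧ Disjoint u I ∧ Disjoint u T ∧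
      Disjoint I T ∧ (∀ v, v ∈ u ∨ v ∈ I ∨ v ∈ T) ∧
      (∀ i ∈ I, ∀ v, v ≠ i → (F.Adj i v ↔ v ∉ u)) ∧ (∀ p ∈ T, ∀ q ∈ T, ¬ F.Adj p q)) := by
  classical
  rcases tutte_or Fᶜ with ⟨σ, hσ⟩ | ⟨u, K, _, _, comp, hs, hc, hlt⟩
  · left
    refine ⟨σ, fun v => ⟨(hσ v).1, ?_, ?_⟩⟩
    · exact ((SimpleGraph.compl_adj _ _ _).1 (hσ v).2).1
    · exact ((SimpleGraph.compl_adj _ _ _).1 (hσ v).2).2
  · right
    set n : K → ℕ := fun k => (Finset.univ.filter (fun v => comp v = k)).card with hn
    set O : Finset K := Finset.univ.filter (fun k => Odd (n k)) with hO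
    have hK7 := clique_of_blocks F hK u K comp hs hc
    have hsum : ∑ k, n k = 14 - u.card := by
      have h1 : ∑ k, n k = (Finset.univ : Finset {v // v ∉ u}).card := by
        rw [Finset.card_eq_sum_card_fiberwise (f := comp) (t := Finset.univ)]
        intro x _; exact Finset.mem_univ _
      rw [h1, Finset.card_univ, Fintype.card_subtype_compl, Fintype.card_coe, hV]
    have hule : u.card ≤ 14 := by
      rw [← hV]; exact Finset.card_le_univ u
    -- parity
    have hpar : Odd O.card ↔ Odd (14 - u.card) := by
      rw [← hsum, Finset.odd_sum_iff_odd_card_odd]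
    have hltO : u.card < O.card := hlt
    have hOle : O.card ≤ Fintype.card K := Finset.card_le_univ O
    have hq : u.card + 2 ≤ O.card := by
      by_contra hcon
      have h1 : O.card = u.card + 1 := by omega
      rw [h1] at hpar
      rcases Nat.even_or_odd u.card with he | ho
      · have : Odd (u.card + 1) := he.add_one
        have h2 := hpar.1 this
        rw [Nat.odd_iff] at h2
        rw [Nat.even_iff] at he
        omega
      · have h2 : Odd (14 - u.card) := by
          rw [Nat.odd_iff] at ho ⊢
          omega
        have h3 := hpar.2 h2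
        rw [Nat.odd_iff] at h3 ho
        omega
    -- size of the blocks
    have hdeg : ∀ v : {v // v ∉ u}, 6 ≤ n (comp v) + u.card := by
      intro v
      have h1 : Fᶜ.degree v.1 = 14 - 1 - F.degree v.1 := by
        rw [SimpleGraph.degree_compl, hV]
      have h2 := hd v.1
      have h3 : Fᶜ.neighborFinset v.1 ⊆
          ((Finset.univ.filter (fun w => comp w = comp v)).erase v).map
            ⟨Subtype.val, Subtype.val_injective⟩ ∪ u := by
        intro w hw
        rw [SimpleGraph.mem_neighborFinset] at hw
        by_cases hwu : w ∈ u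
        · exact Finset.mem_union_right _ hwu
        · apply Finset.mem_union_left
          simp only [Finset.mem_map, Finset.mem_erase, Finset.mem_filter, Finset.mem_univ,
            true_and, Function.Embedding.coeFn_mk]
          refine ⟨⟨w, hwu⟩, ⟨?_, ?_⟩, rfl⟩
          · intro h
            apply hw.ne
            rw [← h]
          · exact (hc v ⟨w, hwu⟩ hw).symm
      have h4 := Finset.card_le_card h3
      rw [SimpleGraph.card_neighborFinset_eq_degree] at h4
      have h5 := Finset.card_union_le
        (((Finset.univ.filter (fun w => comp w = comp v)).erase v).map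
            ⟨Subtype.val, Subtype.val_injective⟩) u
      rw [Finset.card_map, Finset.card_erase_of_mem (by simp)] at h5
      have h6 : 1 ≤ n (comp v) := by
        apply Finset.card_pos.2
        exact ⟨v, by simp⟩
      have h7 : n (comp v) = (Finset.univ.filter (fun w => comp w = comp v)).card := rfl
      omega
    have hn6 : ∀ k, 6 ≤ n k + u.card := by
      intro k
      obtain ⟨v, rfl⟩ := hs k
      exact hdeg v
    have hn1 : ∀ k, 1 ≤ n k := by
      intro k
      obtain ⟨v, rfl⟩ := hs k
      exact Finset.card_pos.2 ⟨v, by simp⟩
    have hOsum : ∀ m, (∀ k, m ≤ n k) → O.card * m ≤ 14 - u.card := by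
      intro m hm
      rw [← hsum]
      calc O.card * m = ∑ k ∈ O, m := by rw [Finset.sum_const, smul_eq_mul]
        _ ≤ ∑ k ∈ O, n k := Finset.sum_le_sum (fun k _ => hm k)
        _ ≤ ∑ k, n k := Finset.sum_le_sum_of_subset (Finset.subset_univ _)
    have hu : u.card = 0 ∨ u.card = 5 := by
      have h1 := hOsum (6 - u.card) (fun k => by have := hn6 k; omega)
      have h2 : u.card ≤ 5 := by omega
      have h3 : (u.card + 2) * (6 - u.card) ≤ 14 - u.card :=
        le_trans (Nat.mul_le_mul_right _ hq) h1
      interval_cases hh : u.card <;> omega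
    rcases hu with hu | hu
    · -- two blocks of size seven
      left
      have hO2 : 1 < O.card := by omega
      obtain ⟨k, hk, l, hl, hkl⟩ := Finset.one_lt_card.1 hO2
      have hk1 : Odd (n k) := (Finset.mem_filter.1 hk).2
      have hl1 : Odd (n l) := (Finset.mem_filter.1 hl).2
      have hk6 := hn6 k
      have hl6 := hn6 l
      have h14 : n k + n l ≤ 14 := by
        have : ∑ j ∈ ({k, l} : Finset K), n j ≤ ∑ j, n j :=
          Finset.sum_le_sum_of_subset (Finset.subset_univ _)
        rw [Finset.sum_pair hkl, hsum] at this
        omega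
      rw [Nat.odd_iff] at hk1 hl1
      have hk7 : n k = 7 := by omega
      refine ⟨(Finset.univ.filter (fun v => comp v = k)).map
            ⟨Subtype.val, Subtype.val_injective⟩, ?_, ?_⟩
      · rw [Finset.card_map]; exact hk7
      · intro x hx y hy
        simp only [Finset.mem_map, Finset.mem_filter, Finset.mem_univ, true_and,
          Function.Embedding.coeFn_mk] at hx hy
        obtain ⟨x', hx', rfl⟩ := hx
        have hyu : y ∉ u := by
          rw [Finset.card_eq_zero.1 hu]; simp
        have hne : x'.1 ≠ y := by
          rintro rfl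
          exact hy ⟨x', hx', rfl⟩
        by_contra hadj
        have := hc x' ⟨y, hyu⟩ (by rw [SimpleGraph.compl_adj]; exact ⟨hne, hadj⟩)
        exact hy ⟨⟨y, hyu⟩, by rw [← this, hx'], rfl⟩
    · -- six singletons and a triple
      right
      have hK7' : Fintype.card K = 7 := by omega
      have hOK : O = Finset.univ := by
        apply Finset.eq_univ_of_card
        omega
      have hodd : ∀ k, n k % 2 = 1 := by
        intro k
        have : k ∈ O := by rw [hOK]; exact Finset.mem_univ _
        exact Nat.odd_iff.1 (Finset.mem_filter.1 this).2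
      have hsum9 : ∑ k, n k = 9 := by rw [hsum, hu]
      -- a block with more than one vertex
      obtain ⟨k0, hk0⟩ : ∃ k0, n k0 ≠ 1 := by
        by_contra hall
        push Not at hall
        have : ∑ k, n k = 7 := by
          rw [Finset.sum_congr rfl (fun k _ => hall k), Finset.sum_const, Finset.card_univ, hK7']
          rfl
        omega
      have hk03 : 3 ≤ n k0 := by
        have := hodd k0
        omega
      have hrest : ∑ k ∈ Finset.univ.erase k0, n k = 9 - n k0 := by
        have := Finset.add_sum_erase (Finset.univ : Finset K) n (Finset.mem_univ k0)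
        omega
      have hcardrest : (Finset.univ.erase k0 : Finset K).card = 6 := by
        rw [Finset.card_erase_of_mem (Finset.mem_univ _), Finset.card_univ, hK7']
      have hrest6 : 6 ≤ ∑ k ∈ Finset.univ.erase k0, n k := by
        calc 6 = ∑ k ∈ Finset.univ.erase k0, 1 := by
              rw [Finset.sum_const, hcardrest]; rfl
          _ ≤ _ := Finset.sum_le_sum (fun k _ => hn1 k)
      have hk03' : n k0 = 3 := by omega
      have hsing : ∀ k, k ≠ k0 → n k = 1 := by
        intro k hk
        by_contra hne
        have h1 : ∑ j ∈ Finset.univ.erase k0, 1 < ∑ j ∈ Finset.univ.erase k0, n j := by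
          apply Finset.sum_lt_sum (fun j _ => hn1 j)
          exact ⟨k, by simp [hk], by have := hn1 k; omega⟩
        rw [Finset.sum_const, hcardrest, hrest, hk03'] at h1
        simp at h1
      set T : Finset V := (Finset.univ.filter (fun v => comp v = k0)).map
            ⟨Subtype.val, Subtype.val_injective⟩ with hT
      set I : Finset V := (Finset.univ.filter (fun v => comp v ≠ k0)).map
            ⟨Subtype.val, Subtype.val_injective⟩ with hI
      have memT : ∀ v, v ∈ T ↔ ∃ h : v ∉ u, comp ⟨v, h⟩ = k0 := by
        intro v
        simp only [hT, Finset.mem_map, Finset.mem_filter, Finset.mem_univ, true_and,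
          Function.Embedding.coeFn_mk]
        constructor
        · rintro ⟨w, hw, rfl⟩; exact ⟨w.2, hw⟩
        · rintro ⟨h, h'⟩; exact ⟨⟨v, h⟩, h', rfl⟩
      have memI : ∀ v, v ∈ I ↔ ∃ h : v ∉ u, comp ⟨v, h⟩ ≠ k0 := by
        intro v
        simp only [hI, Finset.mem_map, Finset.mem_filter, Finset.mem_univ, true_and,
          Function.Embedding.coeFn_mk]
        constructor
        · rintro ⟨w, hw, rfl⟩; exact ⟨w.2, hw⟩
        · rintro ⟨h, h'⟩; exact ⟨⟨v, h⟩, h', rfl⟩
      have hTcard : T.card = 3 := by rw [hT, Finset.card_map]; exact hk03'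
      have hIcard : I.card = 6 := by
        rw [hI, Finset.card_map]
        have h1 : (Finset.univ.filter (fun v : {v // v ∉ u} => comp v ≠ k0)).card
            = ∑ k ∈ Finset.univ.erase k0, n k := by
          rw [Finset.card_eq_sum_card_fiberwise (f := comp) (t := Finset.univ.erase k0)]
          · apply Finset.sum_congr rfl
            intro k hk
            rw [hn]
            congr 1
            ext v
            simp only [Finset.mem_filter, Finset.mem_univ, true_and]
            constructor
            · rintro ⟨_, h⟩; exact h
            · intro h; exact ⟨by rw [h]; exact Finset.ne_of_mem_erase hk, h⟩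
          · intro v hv
            simp only [Finset.coe_filter, Finset.mem_univ, true_and, Set.mem_ofPred_eq] at hv
            simp [hv]
        rw [h1, hrest, hk03']
      refine ⟨u, I, T, hu, hIcard, hTcard, ?_, ?_, ?_, ?_, ?_, ?_⟩
      · rw [Finset.disjoint_left]
        intro v hv hv'
        exact ((memI v).1 hv').1 hv
      · rw [Finset.disjoint_left]
        intro v hv hv'
        exact ((memT v).1 hv').1 hv
      · rw [Finset.disjoint_left]
        intro v hv hv'
        obtain ⟨h1, h2⟩ := (memI v).1 hv
        obtain ⟨h3, h4⟩ := (memT v).1 hv'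
        exact h2 h4
      · intro v
        by_cases h : v ∈ u
        · exact Or.inl h
        · right
          by_cases h' : comp ⟨v, h⟩ = k0
          · right; exact (memT v).2 ⟨h, h'⟩
          · left; exact (memI v).2 ⟨h, h'⟩
      · intro i hi v hvi
        obtain ⟨hiu, hik⟩ := (memI i).1 hi
        have hsub : Fᶜ.neighborFinset i ⊆ u := by
          intro w hw
          rw [SimpleGraph.mem_neighborFinset] at hw
          by_contra hwu
          have h1 := hc ⟨i, hiu⟩ ⟨w, hwu⟩ hw
          have h2 := hsing _ hik
          have h3 : (⟨i, hiu⟩ : {v // v ∉ u}) = ⟨w, hwu⟩ := by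
            rw [hn] at h2
            have h4 := Finset.card_eq_one.1 h2
            obtain ⟨a, ha⟩ := h4
            have h5 : (⟨i, hiu⟩ : {v // v ∉ u}) ∈ (Finset.univ.filter
                (fun v => comp v = comp ⟨i, hiu⟩)) := by simp
            have h6 : (⟨w, hwu⟩ : {v // v ∉ u}) ∈ (Finset.univ.filter
                (fun v => comp v = comp ⟨i, hiu⟩)) := by simp [h1]
            rw [ha, Finset.mem_singleton] at h5 h6
            rw [h5, h6]
          apply hw.ne
          exact congrArg Subtype.val h3
        have hcardle : 5 ≤ (Fᶜ.neighborFinset i).card := by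
          rw [SimpleGraph.card_neighborFinset_eq_degree, SimpleGraph.degree_compl, hV]
          have := hd i
          omega
        have heq : Fᶜ.neighborFinset i = u := by
          apply Finset.eq_of_subset_of_card_le hsub
          omega
        constructor
        · intro hadj hvu
          rw [← heq, SimpleGraph.mem_neighborFinset, SimpleGraph.compl_adj] at hvu
          exact hvu.2 hadj
        · intro hvu
          by_contra hadj
          apply hvu
          rw [← heq, SimpleGraph.mem_neighborFinset, SimpleGraph.compl_adj]
          exact ⟨hvi.symm, hadj⟩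
      · -- the triple is independent
        intro p hp q hq' hpq
        obtain ⟨hpu, hpk⟩ := (memT p).1 hp
        obtain ⟨hqu, hqk⟩ := (memT q).1 hq'
        have hIadj : ∀ i ∈ I, ∀ v, v ≠ i → v ∉ u → F.Adj i v := by
          intro i hi v hvi hvu
          obtain ⟨hiu, hik⟩ := (memI i).1 hi
          by_contra hadj
          have h1 := hc ⟨i, hiu⟩ ⟨v, hvu⟩ (by
            rw [SimpleGraph.compl_adj]; exact ⟨hvi.symm, hadj⟩)
          have h2 := hsing _ hik
          rw [hn] at h2
          obtain ⟨a, ha⟩ := Finset.card_eq_one.1 h2
          have h5 : (⟨i, hiu⟩ : {v // v ∉ u}) ∈ (Finset.univ.filter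
              (fun v => comp v = comp ⟨i, hiu⟩)) := by simp
          have h6 : (⟨v, hvu⟩ : {v // v ∉ u}) ∈ (Finset.univ.filter
              (fun v => comp v = comp ⟨i, hiu⟩)) := by simp [h1]
          rw [ha, Finset.mem_singleton] at h5 h6
          apply hvi
          have := h6.trans h5.symm
          exact congrArg Subtype.val this
        have hpI : p ∉ I := by
          intro h
          obtain ⟨h1, h2⟩ := (memI p).1 h
          exact h2 hpk
        have hqI : q ∉ I := by
          intro h
          obtain ⟨h1, h2⟩ := (memI q).1 h
          exact h2 hqk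
        have hcl : F.IsNClique 8 (insert p (insert q I)) := by
          have hI6 : F.IsNClique 6 I := by
            refine ⟨?_, hIcard⟩
            intro a ha b hb hab
            exact hIadj a ha b hab.symm ((memI b).1 hb).1
          have hI7 : F.IsNClique 7 (insert q I) := by
            apply hI6.insert
            intro b hb
            exact (hIadj b hb q (by rintro rfl; exact hqI hb) hqu).symm
          apply hI7.insert
          intro b hb
          rcases Finset.mem_insert.1 hb with rfl | hb
          · exact hpq
          · exact (hIadj b hb p (by rintro rfl; exact hpI hb) hpu).symm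
        exact hK _ hcl

end Pool.Agent.helper88.BK
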